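import Pool.Agent.RDC.Close
import Pool.Agent.LSS.WSpan

/-!
THEOREM 24A+ (notes 2083, 2091, 20401), set valued.  `c ≠ 0` a symbol of a finite linked
structure with `-1 = 1`, `G = D(c)`, `z` a slot of `c` such that (a) all elements `≠ 0` of `V_z`
are slots of `c`, (b) for all `x ∈ G` one of `x`, `x + z` is a slot of `c`.  Then some slot `w`
of `c` with `q (z, w) = c` has `G = V_w ∪ {x : q (w, x) = c}`; hence there is an element of rank
one or a prime functional.
-/

set_option autoImplicit false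
set_option linter.unusedSectionVars false
set_option linter.unusedSimpArgs false

namespace Pool.Agent.RDC

open Finset ETC Pool.Agent.ETCP Pool.Agent.LSS
open Pool.Agent.Helper58.PLine (QData)

variable {V Q : Type} [AddCommGroup V] [Module (ZMod 2) V] {S : QData V Q}

/-- `D_c(x)`: the `w` with `q (x, w) ∈ {0, c}` -/
def Dx (S : QData V Q) (c : Q) (x : V) : Submodule (ZMod 2) V where
  carrier := {w | C S x w ∨ S.q x w = c}
  add_mem' := by
    rintro a b (ha | ha) (hb | hb)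
    · exact Or.inl (ha.add hb)
    · right
      rw [← hb]
      exact q_eq (ha.of_eq rfl (eo (by abel_nf; simp [ch2, ch3, ch4])))
    · right
      rw [← ha]
      exact q_eq (hb.of_eq rfl (eo (by abel_nf; simp [ch2, ch3, ch4])))
    · left
      exact q_eq_iff.1 (ha.trans hb.symm)
  zero_mem' := Or.inl (C.zero x)
  smul_mem' := by
    intro a w hw
    rcases ETC.zm a with rfl | rfl
    · rw [zero_smul]; exact Or.inl (C.zero x)
    · rw [one_smul]; exact hw

theorem mem_Dx {c : Q} {x w : V} : w ∈ Dx S c x ↔ C S x w ∨ S.q x w = c := Iff.rfl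

theorem Dx_symm {c : Q} {x w : V} (h : w ∈ Dx S c x) : x ∈ Dx S c w := by
  rcases h with h | h
  · exact Or.inl h.symm
  · exact Or.inr (by rw [S.symm, h])

/-- the key splitting, direction 1 -/
theorem split_of {c : Q} {w w' x a a' : V} (hw' : SlQ S c w') (ha : w ∈ Dx S c a)
    (ha' : w + w' ∈ Dx S c a') (hx : a + a' = x) :
    ∃ t, C S x (w + t) ∧ C S (x + w') t := by
  -- the basic case
  have basic : ∀ a a', a + a' = x → C S a w → C S a' (w + w') →
      ∃ t, C S x (w + t) ∧ C S (x + w') t := by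
    intro a a' hx h1 h2
    have e1 : S.q x w = S.q a' w := by
      apply q_eq'
      exact h1.of_eq (by rw [← hx]; exact eo (by abel_nf; simp [ch2, ch3, ch4])) rfl
    have e2 : S.q a' w = S.q a' w' := q_eq h2
    have e3 : S.q x w = S.q w' a' := by rw [e1, e2, S.symm]
    obtain ⟨t, h3, h4, h5⟩ := link e3
    exact ⟨t, h3, h5⟩
  obtain ⟨y0, hy0⟩ := hw'
  have comm : ∀ y, C S y w → C S y (w + w') → C S y w' := by
    intro y h1 h2
    exact (h1.add h2).of_eq rfl (eo (by abel_nf; simp [ch2, ch3, ch4]))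
  rcases ha with ha | ha
  · rcases ha' with ha' | ha'
    · exact basic a a' hx ha ha'
    · -- `q (a', w + w') = c`
      obtain ⟨y, h1, h2, h3⟩ := link (show S.q (w + w') a' = S.q w' y0 by
        rw [S.symm, ha', hy0])
      have e : C S w y := h3.of_eq (eo (by abel_nf; simp [ch2, ch3, ch4])) rfl
      refine basic (a + y) (a' + y) ?_ (ha.add' e.symm) h1.symm
      rw [← hx]
      exact eo (by abel_nf; simp [ch2, ch3, ch4])
  · rcases ha' with ha' | ha'
    · obtain ⟨y, h1, h2, h3⟩ := link (show S.q w a = S.q w' y0 by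
        rw [S.symm, ha, hy0])
      refine basic (a + y) (a' + y) ?_ h1.symm (ha'.add' h3.symm)
      rw [← hx]
      exact eo (by abel_nf; simp [ch2, ch3, ch4])
    · obtain ⟨y, h1, h2, h3⟩ := link (show S.q w a = S.q (w + w') a' by
        rw [S.symm, ha, S.symm, ha'])
      refine basic (a + y) (a' + y) ?_ h1.symm h2.symm
      rw [← hx]
      exact eo (by abel_nf; simp [ch2, ch3, ch4])

/-- number of elements of a subspace, as a sum over a bigger one -/
theorem sum_ind_mem [Fintype V] (G A : Submodule (ZMod 2) V) [Fintype G] :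
    ∑ x : G, ind ((x : V) ∈ A) = (Nat.card ↥(A ⊓ G) : ℤ) := by
  classical
  have h1 : ∑ x : G, ind ((x : V) ∈ A) = ((Finset.univ.filter fun x : G => (x : V) ∈ A).card : ℤ) := by
    rw [Finset.card_filter]
    push_cast
    apply Finset.sum_congr rfl
    intro x _
    unfold ind
    split_ifs <;> rfl
  rw [h1, ← Fintype.card_subtype, ← Nat.card_eq_fintype_card]
  congr 1
  apply Nat.card_congr
  exact
    { toFun := fun x => ⟨x.1.1, x.2, x.1.2⟩
      invFun := fun x => ⟨⟨x.1, x.2.2⟩, x.2.1⟩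
      left_inv := fun x => rfl
      right_inv := fun x => rfl }

theorem card_sup_inf [Finite V] (A A' : Submodule (ZMod 2) V) :
    Nat.card ↥A * Nat.card ↥A' = Nat.card ↥(A ⊓ A') * Nat.card ↥(A ⊔ A') := by
  classical
  have hc : ∀ P : Submodule (ZMod 2) V, Nat.card P = 2 ^ Module.finrank (ZMod 2) P := by
    intro P
    have := Fintype.ofFinite P
    rw [Nat.card_eq_fintype_card, Module.card_eq_pow_finrank (K := ZMod 2), ZMod.card]
  rw [hc, hc, hc, hc, ← pow_add, ← pow_add]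
  congr 1
  have := Submodule.finrank_sup_add_finrank_inf_eq A A'
  omega

/-- sums over a subtype -/
theorem sum_subtype_ind {ι : Type} [Fintype ι] (p r : ι → Prop) [Fintype {x // p x}] :
    ∑ a : {x // p x}, ind (r a) = ∑ x, ind (p x ∧ r x) := by
  classical
  have h1 : ∑ x ∈ Finset.univ.filter p, ind (r x) = ∑ a : {x // p x}, ind (r a) :=
    Finset.sum_subtype (Finset.univ.filter p) (by simp) (fun x => ind (r x))
  rw [← h1, Finset.sum_filter]
  apply Finset.sum_congr rfl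
  intro x _
  split_ifs with h
  · exact ind_congr ⟨fun h' => ⟨h, h'⟩, fun h' => h'.2⟩
  · rw [ind_false fun h' => h h'.1]

/-- the product formula -/
theorem prod_formula [Fintype V] {c : Q} {z : V}
    (hW : ∀ w ∈ Dx S c z, w ≠ 0 → SlQ S c w) (G : Submodule (ZMod 2) V) [Fintype ↥G]
    (hG : ∀ w v, SlQ S c w → C S w v → v ∈ G)
    {w w' : V} (hw : w ∈ Dx S c z) (hw' : w' ∈ Dx S c z) (hw0 : w' ≠ 0) :
    (∑ x : G, ind (w ∈ Dx S c x)) * (∑ x : G, ind (w + w' ∈ Dx S c x)) =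
      (∑ x : G, ind (w' ∈ Dx S c x ∧ w ∈ Dx S c x)) *
        (∑ x : G, ind (w ∈ S.ann x ⊔ S.ann (x + w'))) := by
  have hsl := hW w' hw' hw0
  have sy : ∀ v x : V, v ∈ Dx S c x ↔ x ∈ Dx S c v := fun v x => ⟨Dx_symm, Dx_symm⟩
  have e1 : ∑ x : G, ind (w ∈ Dx S c x) = (Nat.card ↥(Dx S c w ⊓ G) : ℤ) := by
    rw [← sum_ind_mem]
    exact Finset.sum_congr rfl fun x _ => ind_congr (sy _ _)
  have e2 : ∑ x : G, ind (w + w' ∈ Dx S c x) = (Nat.card ↥(Dx S c (w + w') ⊓ G) : ℤ) := by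
    rw [← sum_ind_mem]
    exact Finset.sum_congr rfl fun x _ => ind_congr (sy _ _)
  have e3 : ∑ x : G, ind (w' ∈ Dx S c x ∧ w ∈ Dx S c x) =
      (Nat.card ↥((Dx S c w ⊓ G) ⊓ (Dx S c (w + w') ⊓ G)) : ℤ) := by
    have h0 : (Dx S c w ⊓ G) ⊓ (Dx S c (w + w') ⊓ G) = (Dx S c w ⊓ Dx S c (w + w')) ⊓ G := by
      rw [inf_inf_inf_comm, inf_idem]
    rw [h0, ← sum_ind_mem]
    apply Finset.sum_congr rfl
    intro x _
    apply ind_congr
    rw [Submodule.mem_inf, ← sy w, ← sy (w + w')]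
    constructor
    · rintro ⟨h1, h2⟩
      exact ⟨h2, add_mem h2 h1⟩
    · rintro ⟨h1, h2⟩
      refine ⟨?_, h1⟩
      have := add_mem h1 h2
      rwa [ETC.add_add_self] at this
  have e4 : ∑ x : G, ind (w ∈ S.ann x ⊔ S.ann (x + w')) =
      (Nat.card ↥((Dx S c w ⊓ G) ⊔ (Dx S c (w + w') ⊓ G)) : ℤ) := by
    have h0 : (Dx S c w ⊓ G) ⊔ (Dx S c (w + w') ⊓ G) =
        ((Dx S c w ⊓ G) ⊔ (Dx S c (w + w') ⊓ G)) ⊓ G :=
      (inf_eq_left.2 (sup_le inf_le_right inf_le_right)).symm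
    rw [h0, ← sum_ind_mem]
    apply Finset.sum_congr rfl
    rintro ⟨x, hx⟩ _
    apply ind_congr
    show w ∈ S.ann x ⊔ S.ann (x + w') ↔ x ∈ (Dx S c w ⊓ G) ⊔ (Dx S c (w + w') ⊓ G)
    constructor
    · intro h
      obtain ⟨t1, h1, t2, h2, h3⟩ := Submodule.mem_sup.1 h
      have h1' : C S x t1 := h1
      have h2' : C S (x + w') t2 := h2
      by_cases hw00 : w = 0
      · subst hw00
        apply Submodule.mem_sup_left
        exact ⟨Or.inl (C.zero' x), hx⟩
      · have hwS := hW w hw hw00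
        have f1 : S.q w x = S.q w' t2 := by
          have g1 : S.q x w = S.q x t2 := q_eq (h1'.of_eq rfl
            (by rw [← h3]; exact eo (by abel_nf; simp [ch2, ch3, ch4])))
          have g2 : S.q x t2 = S.q w' t2 := q_eq' h2'
          rw [S.symm, g1, g2]
        obtain ⟨t, k1, k2, k3⟩ := link f1
        have m1 : x + t ∈ G := hG w _ hwS k1
        have m2 : t ∈ G := by
          have := add_mem hx m1
          rwa [ETC.add_add_self] at this
        have e : x = (x + t) + t := by rw [add_assoc, ZModModule.add_self, add_zero]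
        have m3 : (x + t) + t ∈ (Dx S c w ⊓ G) ⊔ (Dx S c (w + w') ⊓ G) :=
          Submodule.add_mem_sup ⟨Or.inl k1, m1⟩ ⟨Or.inl k3, m2⟩
        rwa [← e] at m3
    · intro h
      obtain ⟨a, ⟨h1, h1'⟩, a', ⟨h2, h2'⟩, h3⟩ := Submodule.mem_sup.1 h
      obtain ⟨t, k1, k2⟩ := split_of hsl (Dx_symm h1) (Dx_symm h2) h3
      have e : w = (w + t) + t := by rw [add_assoc, ZModModule.add_self, add_zero]
      have m3 : (w + t) + t ∈ S.ann x ⊔ S.ann (x + w') := Submodule.add_mem_sup k1 k2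
      rwa [← e] at m3
  rw [e1, e2, e3, e4]
  exact_mod_cast card_sup_inf _ _

/-- **Theorem 24A+.** -/
theorem exists_slot24 [Finite V] {c : Q} (hc0 : c ≠ S.z) (hc : ∃ x, SlQ S c x)
    {z : V} (hz : SlQ S c z) (ha : ∀ u, C S z u → u ≠ 0 → SlQ S c u)
    (hb : ∀ x ∈ DcQ S c hc, SlQ S c x ∨ SlQ S c (x + z)) :
    ∃ w, S.q z w = c ∧ ∀ x ∈ DcQ S c hc, C S w x ∨ S.q w x = c := by
  classical
  have := Fintype.ofFinite V
  generalize hGd : DcQ S c hc = G at *
  have hG : ∀ w v, SlQ S c w → C S w v → v ∈ G := by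
    intro w v h1 h2
    rw [← hGd]
    exact DcQ_ann h1 h2
  have := Fintype.ofFinite ↥G
  have hW : ∀ w ∈ Dx S c z, w ≠ 0 → SlQ S c w := by
    rintro w (h | h) h0
    · exact ha w h h0
    · exact ⟨z, by rw [S.symm, h]⟩
  obtain ⟨w1, hw1⟩ := hz
  let W := Dx S c z
  have hw1W : w1 ∈ W := Or.inr hw1
  -- the functional
  obtain ⟨χ, hχ1, hχ0⟩ : ∃ χ : D W, χ ⟨w1, hw1W⟩ = 1 ∧
      ∀ y ∈ (S.ann z).comap W.subtype, χ y = 0 := by
    apply exists_dual_sep
    intro h
    have h' : C S z w1 := h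
    exact hc0 (hw1.symm.trans h')
  have hχc : ∀ w : W, S.q z w = c → χ w = 1 := by
    intro w hw
    have h1 : χ (w + ⟨w1, hw1W⟩) = 0 := by
      apply hχ0
      exact q_eq_iff.1 (hw.trans hw1.symm)
    rw [map_add, hχ1] at h1
    exact ETC.eq_of_add_eq_zero (V := ZMod 2) h1
  let E : G → Submodule (ZMod 2) W := fun x => (Dx S c (x : V)).comap W.subtype
  have hne : Nonempty G := ⟨0⟩
  obtain ⟨w, hw, hw'⟩ := exists_point (χ := χ) E (by
    intro w'
    by_cases h0 : w' = 0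
    · subst h0
      refine ⟨_, inferInstance, fun a : G × G => E a.1 ⊓ E a.2, fun w => ?_⟩
      rw [add_zero, cnt_mul]
    · refine ⟨{x : G // (w' : V) ∈ Dx S c (x : V)} × G, inferInstance,
        fun a => E a.1 ⊓ ((S.ann (a.2 : V) ⊔ S.ann ((a.2 : V) + w')).comap W.subtype),
        fun w => ?_⟩
      rw [← cnt_mul (fun a : {x : G // (w' : V) ∈ Dx S c (x : V)} => E a)
        (fun a : G => (S.ann (a : V) ⊔ S.ann ((a : V) + w')).comap W.subtype)]
      have key := prod_formula (S := S) (c := c) (z := z) hW G hG w.2 w'.2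
        (fun h => h0 (Subtype.ext h))
      have k1 : cnt (fun a : {x : G // (w' : V) ∈ Dx S c (x : V)} => E a) w =
          ∑ x : G, ind ((w' : V) ∈ Dx S c (x : V) ∧ (w : V) ∈ Dx S c (x : V)) :=
        sum_subtype_ind (fun x : G => (w' : V) ∈ Dx S c (x : V))
          (fun x : G => (w : V) ∈ Dx S c (x : V))
      rw [k1]
      exact key) (by
    rintro ⟨x, hx⟩
    have hzt : ∃ t, S.q z t = c ∧ (C S x t ∨ S.q x t = c) := by
      rcases hb x hx with ⟨y, hy⟩ | ⟨y, hy⟩
      · obtain ⟨t, h1, h2⟩ := S.link z w1 x y (hw1.trans hy.symm)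
        exact ⟨t, by rw [← h1, hw1], Or.inr (by rw [← h2, hy])⟩
      · obtain ⟨t, h1, h2⟩ := S.link z w1 (x + z) y (hw1.trans hy.symm)
        refine ⟨t, by rw [← h1, hw1], Or.inl ?_⟩
        have h3 : S.q (x + z) t = S.q z t := by rw [← h2, hy, ← h1, hw1]
        exact (q_eq'_iff.1 h3).of_eq (by rw [add_assoc, ZModModule.add_self, add_zero]) rfl
    obtain ⟨t, ht, ht'⟩ := hzt
    exact ⟨⟨t, Or.inr ht⟩, ht', hχc _ ht⟩)
  refine ⟨w, ?_, fun x hx => ?_⟩
  · rcases w.2 with h | h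
    · exfalso
      have := hχ0 w h
      rw [hw] at this
      exact one_ne_zero this
    · exact h
  · exact Dx_symm (hw' ⟨x, hx⟩)

/-- a slot `x` of `c` with `D(c) = V_x ∪ {v : q (x, v) = c}` gives an element of rank one or a
prime functional -/
theorem prime_of_slot [Finite V] (he : S.e = 0) {c : Q} (hc0 : c ≠ S.z)
    (hc : ∃ x, SlQ S c x) {x v1 : V} (hxv1 : S.q x v1 = c)
    (hx : ∀ v ∈ DcQ S c hc, C S x v ∨ S.q x v = c) :
    (∃ x, x ≠ 0 ∧ ∀ v w, C S x v ∨ C S x w ∨ C S x (v + w)) ∨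
    ∃ φ : V →ₗ[ZMod 2] ZMod 2, φ ≠ 0 ∧
      ∀ p p', (∃ v, C S p v ∧ φ v = 1) → (∃ v, C S p' v ∧ φ v = 1) →
        (∃ v, C S (p + p') v ∧ φ v = 1) → ∃ v, C S p v ∧ C S p' v ∧ φ v = 1 := by
  by_cases hr : ∃ a b, ¬ C S x a ∧ ¬ C S x b ∧ ¬ C S x (a + b)
  · right
    have hx0 : ∀ v, C S x v → v ∈ DcQ S c hc := fun v hv => DcQ_ann ⟨v1, hxv1⟩ hv
    have hg : Rg S x v1 := by
      constructor
      · intro h0
        exact hc0 (hxv1.symm.trans h0)
      · rintro v ⟨w, w', hw, hw', hvw⟩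
        have a4 : SlQ S c (v1 + w) := by
          refine ⟨x, ?_⟩
          rw [S.symm, ← hxv1]
          exact q_eq (hw.of_eq rfl (eo (by abel_nf; simp [ch2, ch3, ch4])))
        have a5 : v ∈ DcQ S c hc := by
          have e : v = (v + w') + w' := by rw [add_assoc, ZModModule.add_self, add_zero]
          rw [e]
          exact add_mem (DcQ_ann a4 hvw) (hx0 w' hw')
        rcases hx v a5 with h0 | h0
        · exact Or.inl h0
        · right
          exact q_eq_iff.1 (h0.trans hxv1.symm)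
    obtain ⟨ψ, g1, -, g3⟩ := prime_of_rigid (S := S) (x := x) he hr ⟨v1, hg⟩
    exact ⟨ψ, g1, g3⟩
  · left
    push Not at hr
    refine ⟨x, ?_, fun v w => ?_⟩
    · rintro rfl
      rw [S.symm, S.q_zero] at hxv1
      exact hc0 hxv1.symm
    · by_cases h1 : C S x v
      · exact Or.inl h1
      · by_cases h2 : C S x w
        · exact Or.inr (Or.inl h2)
        · exact Or.inr (Or.inr (hr v w h1 h2))

/-- 24A+ with the conclusion of Theorem LS -/
theorem prime24 [Finite V] (he : S.e = 0) {c : Q} (hc0 : c ≠ S.z) (hc : ∃ x, SlQ S c x)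
    {z : V} (hz : SlQ S c z) (ha : ∀ u, C S z u → u ≠ 0 → SlQ S c u)
    (hb : ∀ x ∈ DcQ S c hc, SlQ S c x ∨ SlQ S c (x + z)) :
    (∃ x, x ≠ 0 ∧ ∀ v w, C S x v ∨ C S x w ∨ C S x (v + w)) ∨
    ∃ φ : V →ₗ[ZMod 2] ZMod 2, φ ≠ 0 ∧
      ∀ p p', (∃ v, C S p v ∧ φ v = 1) → (∃ v, C S p' v ∧ φ v = 1) →
        (∃ v, C S (p + p') v ∧ φ v = 1) → ∃ v, C S p v ∧ C S p' v ∧ φ v = 1 := by
  obtain ⟨w, hw, hw'⟩ := exists_slot24 hc0 hc hz ha hb
  exact prime_of_slot he hc0 hc (x := w) (v1 := z) (by rw [S.symm, hw]) hw'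

end Pool.Agent.RDC
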