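import Pool.Agent.ETC.Char

/-!
The closure argument for families of subspaces: if all the functions `w ↦ F w * F (w + w')`,
`F w = #{i : w ∈ E i}`, have nonnegative Fourier coefficients, then the functionals which vanish
on some `E i` form a group.
-/

set_option autoImplicit false
set_option linter.unusedSectionVars false

namespace Pool.Agent.RDC

open Finset ETC

variable {W ι κ : Type} [AddCommGroup W] [Module (ZMod 2) W]

/-- the number of members of the family containing `w` -/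
noncomputable def cnt [Fintype ι] (E : ι → Submodule (ZMod 2) W) (w : W) : ℤ :=
  ∑ i, ind (w ∈ E i)

theorem sum_sub_kill [Fintype W] {E : Submodule (ZMod 2) W} {χ : D W} (h : ∀ w ∈ E, χ w = 0) :
    0 < ∑ w : W, ind (w ∈ E) * sg (χ w) := by
  have h1 : ∀ w : W, ind (w ∈ E) * sg (χ w) = ind (w ∈ E) := by
    intro w
    by_cases hw : w ∈ E
    · rw [h w hw, sg_zero, mul_one]
    · rw [ind_false hw, zero_mul]
  rw [Finset.sum_congr rfl fun w _ => h1 w]
  apply Finset.sum_pos' (fun w _ => ind_nonneg _)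
  exact ⟨0, Finset.mem_univ _, by rw [ind_true E.zero_mem]; norm_num⟩

theorem sum_sub_zero [Fintype W] {E : Submodule (ZMod 2) W} {χ : D W} {w0 : W} (h0 : w0 ∈ E)
    (h1 : χ w0 = 1) : ∑ w : W, ind (w ∈ E) * sg (χ w) = 0 := by
  have e1 : ∑ w : W, ind (w ∈ E) * sg (χ w) =
      ∑ w : W, ind (w + w0 ∈ E) * sg (χ (w + w0)) :=
    (Equiv.sum_comp (Equiv.addRight w0) (fun w => ind (w ∈ E) * sg (χ w))).symm
  have e2 : ∑ w : W, ind (w + w0 ∈ E) * sg (χ (w + w0)) =
      - ∑ w : W, ind (w ∈ E) * sg (χ w) := by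
    rw [← Finset.sum_neg_distrib]
    apply Finset.sum_congr rfl
    intro w _
    have : ind (w + w0 ∈ E) = ind (w ∈ E) := by
      apply ind_congr
      constructor
      · intro h
        have := E.add_mem h h0
        rwa [add_add_self'] at this
      · intro h
        exact E.add_mem h h0
    rw [this, map_add, sg_add, h1, sg_one]
    ring
  omega

theorem sum_sub_nonneg [Fintype W] (E : Submodule (ZMod 2) W) (χ : D W) :
    0 ≤ ∑ w : W, ind (w ∈ E) * sg (χ w) := by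
  by_cases h : ∀ w ∈ E, χ w = 0
  · exact (sum_sub_kill h).le
  · push Not at h
    obtain ⟨w0, h0, h1⟩ := h
    rw [sum_sub_zero h0 ((zm (χ w0)).resolve_left h1)]

theorem sum_cnt [Fintype W] [Fintype ι] (E : ι → Submodule (ZMod 2) W) (χ : D W) :
    ∑ w : W, cnt E w * sg (χ w) = ∑ i, ∑ w : W, ind (w ∈ E i) * sg (χ w) := by
  rw [Finset.sum_comm]
  apply Finset.sum_congr rfl
  intro w _
  rw [cnt, Finset.sum_mul]

theorem sum_cnt_pos [Fintype W] [Fintype ι] {E : ι → Submodule (ZMod 2) W} {χ : D W}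
    (h : ∃ i, ∀ w ∈ E i, χ w = 0) : 0 < ∑ w : W, cnt E w * sg (χ w) := by
  rw [sum_cnt]
  obtain ⟨i, hi⟩ := h
  apply Finset.sum_pos' (fun i _ => sum_sub_nonneg _ _)
  exact ⟨i, Finset.mem_univ _, sum_sub_kill hi⟩

theorem sum_cnt_zero [Fintype W] [Fintype ι] {E : ι → Submodule (ZMod 2) W} {χ : D W}
    (h : ¬ ∃ i, ∀ w ∈ E i, χ w = 0) : ∑ w : W, cnt E w * sg (χ w) = 0 := by
  rw [sum_cnt]
  apply Finset.sum_eq_zero
  intro i _
  push Not at h
  obtain ⟨w0, h0, h1⟩ := h i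
  exact sum_sub_zero h0 ((zm (χ w0)).resolve_left h1)

/-- products of two families -/
theorem cnt_mul [Fintype ι] [Fintype κ] (E : ι → Submodule (ZMod 2) W)
    (E' : κ → Submodule (ZMod 2) W) (w : W) :
    cnt E w * cnt E' w = cnt (fun a : ι × κ => E a.1 ⊓ E' a.2) w := by
  unfold cnt
  rw [Finset.sum_mul_sum, Fintype.sum_prod_type]
  apply Finset.sum_congr rfl
  intro i _
  apply Finset.sum_congr rfl
  intro j _
  rw [← ind_and]
  rfl

theorem sum_cnt_nonneg [Fintype W] [Fintype ι] (E : ι → Submodule (ZMod 2) W) (χ : D W) :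
    0 ≤ ∑ w : W, cnt E w * sg (χ w) := by
  rw [sum_cnt]
  exact Finset.sum_nonneg fun i _ => sum_sub_nonneg _ _

/-- **Closure for families of subspaces.** -/
theorem closure_fam [Finite W] [Fintype ι] (E : ι → Submodule (ZMod 2) W)
    (h : ∀ w' : W, ∃ (κ : Type) (_ : Fintype κ) (E' : κ → Submodule (ZMod 2) W),
      ∀ w, cnt E w * cnt E (w + w') = cnt E' w) {χ₁ χ₂ : D W}
    (h₁ : ∃ i, ∀ w ∈ E i, χ₁ w = 0) (h₂ : ∃ i, ∀ w ∈ E i, χ₂ w = 0) :
    ∃ i, ∀ w ∈ E i, (χ₁ + χ₂) w = 0 := by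
  classical
  have := Fintype.ofFinite W
  by_contra hc
  have z1 : ∑ w : W, cnt E w * sg ((χ₁ + χ₂) w) = 0 := sum_cnt_zero hc
  have hnn : ∀ y : W, 0 ≤ ∑ w : W, cnt E w * cnt E (w + y) * sg ((χ₁ + χ₂) w) := by
    intro y
    obtain ⟨κ, _, E', hE'⟩ := h y
    rw [Finset.sum_congr rfl fun w _ => by rw [hE' w]]
    exact sum_cnt_nonneg E' _
  have z2 : ∑ y : W, ∑ w : W, cnt E w * cnt E (w + y) * sg ((χ₁ + χ₂) w) = 0 := by
    rw [Finset.sum_comm]
    have : ∀ w : W, ∑ y : W, cnt E w * cnt E (w + y) * sg ((χ₁ + χ₂) w) =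
        (cnt E w * sg ((χ₁ + χ₂) w)) * ∑ v : W, cnt E v := by
      intro w
      rw [← Equiv.sum_comp (Equiv.addLeft w) (fun v => cnt E v), Finset.mul_sum]
      apply Finset.sum_congr rfl
      intro y _
      simp only [Equiv.coe_addLeft]
      ring
    rw [Finset.sum_congr rfl fun w _ => this w, ← Finset.sum_mul, z1, zero_mul]
  have z3 : ∀ y : W, ∑ w : W, cnt E w * cnt E (w + y) * sg ((χ₁ + χ₂) w) = 0 := by
    intro y
    exact (Finset.sum_eq_zero_iff_of_nonneg (fun y _ => hnn y)).1 z2 y (Finset.mem_univ y)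
  have z4 : ∑ y : W, (∑ w : W, cnt E w * cnt E (w + y) * sg ((χ₁ + χ₂) w)) * sg (χ₂ y) =
      (∑ w : W, cnt E w * sg (χ₁ w)) * ∑ v : W, cnt E v * sg (χ₂ v) := by
    rw [Finset.sum_congr rfl fun y _ => Finset.sum_mul _ _ _, Finset.sum_comm, Finset.sum_mul]
    apply Finset.sum_congr rfl
    intro w _
    rw [← Equiv.sum_comp (Equiv.addLeft w) (fun v => cnt E v * sg (χ₂ v)), Finset.mul_sum]
    apply Finset.sum_congr rfl
    intro y _
    simp only [Equiv.coe_addLeft]
    rw [LinearMap.add_apply, sg_add, map_add χ₂, sg_add]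
    ring
  have z5 : ∑ y : W, (∑ w : W, cnt E w * cnt E (w + y) * sg ((χ₁ + χ₂) w)) * sg (χ₂ y) = 0 := by
    apply Finset.sum_eq_zero
    intro y _
    rw [z3 y, zero_mul]
  rw [z5] at z4
  rcases mul_eq_zero.1 z4.symm with h | h
  · exact (sum_cnt_pos h₁).ne' h
  · exact (sum_cnt_pos h₂).ne' h

/-- if a functional vanishes on no member of the family, some point of the intersection of the
family is not in its kernel -/
theorem exists_point [Finite W] [Fintype ι] [Nonempty ι] (E : ι → Submodule (ZMod 2) W)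
    (h : ∀ w' : W, ∃ (κ : Type) (_ : Fintype κ) (E' : κ → Submodule (ZMod 2) W),
      ∀ w, cnt E w * cnt E (w + w') = cnt E' w) {χ : D W}
    (hχ : ∀ i, ∃ w ∈ E i, χ w = 1) : ∃ w, χ w = 1 ∧ ∀ i, w ∈ E i := by
  classical
  let P : Submodule (ZMod 2) (D W) :=
    { carrier := {ψ | ∃ i, ∀ w ∈ E i, ψ w = 0}
      add_mem' := fun {a b} ha hb => closure_fam E h ha hb
      zero_mem' := by
        obtain ⟨i⟩ := (inferInstance : Nonempty ι)
        exact ⟨i, fun w _ => rfl⟩
      smul_mem' := by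
        intro c ψ hψ
        rcases zm c with rfl | rfl
        · obtain ⟨i⟩ := (inferInstance : Nonempty ι)
          exact ⟨i, fun w _ => by rw [zero_smul]; rfl⟩
        · rw [one_smul]; exact hψ }
  have hχP : χ ∉ P := by
    rintro ⟨i, hi⟩
    obtain ⟨w, hw, hw1⟩ := hχ i
    rw [hi w hw] at hw1
    exact zero_ne_one hw1
  obtain ⟨f, hf1, hf0⟩ := exists_dual_sep hχP
  -- `f` is evaluation at a point
  obtain ⟨w, hw⟩ := (Module.evalEquiv (ZMod 2) W).surjective f
  have hfw : ∀ ψ : D W, f ψ = ψ w := by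
    intro ψ
    rw [← hw]
    rfl
  refine ⟨w, by rw [← hfw, hf1], fun i => ?_⟩
  by_contra hwi
  obtain ⟨ψ, hψ1, hψ0⟩ := exists_dual_sep hwi
  have := hf0 ψ ⟨i, hψ0⟩
  rw [hfw, hψ1] at this
  exact one_ne_zero this

end Pool.Agent.RDC
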