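import Pool.Agent.LSS.Main

/-!
The flag door (notes 2169, 2186): if the complement of the set of slots of one quaternion, inside
the group generated by the slots, satisfies two conditions on subgroups of order eight, then the
non-slots generate a smaller group.
-/

set_option autoImplicit false
set_option linter.unusedSectionVars false

namespace Pool.Agent.RDC

open QS Pool.Agent.RFT Pool.Agent.ETG Pool.Agent.RFN Pool.Agent.AST Pool.Agent.LSS
open Pool.Agent.Helper58.PLine (QData)

section Colour

variable {G : Type} [CommGroup G]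

/-- the elements of `X` which move `n` to an element of `Y` -/
def nb (X Y : Set G) (n : G) : Set G := {a | a ∈ X ∧ n * a ∈ Y}

/-- two colours `X`, `Y` on the nontrivial elements of `D`, such that no subgroup of order eight
contains exactly three independent elements of one of the two colours -/
structure Col (D : Subgroup G) (X Y : Set G) : Prop where
  sq : ∀ g : G, g * g = 1
  subX : ∀ g ∈ X, g ∈ D
  subY : ∀ g ∈ Y, g ∈ D
  disj : ∀ g ∈ X, g ∉ Y
  oneX : (1 : G) ∉ X
  oneY : (1 : G) ∉ Y
  cov : ∀ g ∈ D, g = 1 ∨ g ∈ X ∨ g ∈ Y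
  f1 : ∀ x ∈ X, ∀ y ∈ X, ∀ z ∈ X, x * y ∈ Y → x * z ∈ Y → y * z ∈ Y → x * y * z ∈ X
  f2 : ∀ x ∈ Y, ∀ y ∈ Y, ∀ z ∈ Y, x * y ∈ X → x * z ∈ X → y * z ∈ X → x * y * z ∈ Y

theorem Col.symm {D : Subgroup G} {X Y : Set G} (h : Col D X Y) : Col D Y X :=
  ⟨h.sq, h.subY, h.subX, fun g hg hg' => h.disj g hg' hg, h.oneY, h.oneX,
    fun g hg => (h.cov g hg).imp id Or.symm, h.f2, h.f1⟩

theorem Col.mm {D : Subgroup G} {X Y : Set G} (h : Col D X Y) (g a : G) : g * a * a = g := by
  rw [mul_assoc, h.sq, mul_one]

theorem Col.step {D : Subgroup G} {X Y : Set G} (h : Col D X Y) {n a b : G} (hn : n ∈ Y)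
    (ha : a ∈ nb X Y n) (hb : b ∈ nb X Y n) (hab : a ≠ b) : n * a * b ∈ Y := by
  have hD : a * b ∈ D := D.mul_mem (h.subX a ha.1) (h.subX b hb.1)
  rcases h.cov _ hD with h1 | h1 | h1
  · exfalso
    apply hab
    have := h.mm a b
    rw [h1, one_mul] at this
    exact this.symm
  · have := h.f2 n hn (n * a) ha.2 (n * b) hb.2
    have e1 : n * (n * a) = a := by rw [← mul_assoc, h.sq, one_mul]
    have e2 : n * (n * b) = b := by rw [← mul_assoc, h.sq, one_mul]
    have e3 : n * a * (n * b) = a * b := by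
      rw [mul_mul_mul_comm, h.sq, one_mul]
    have e4 : a * (n * b) = n * a * b := by
      rw [← mul_assoc, mul_comm a n]
    rw [e1, e2, e3, e4] at this
    exact this ha.1 hb.1 h1
  · have hD2 : n * a * b ∈ D := D.mul_mem (D.mul_mem (h.subY n hn) (h.subX a ha.1))
      (h.subX b hb.1)
    rcases h.cov _ hD2 with h2 | h2 | h2
    · exfalso
      have := h.mm (n * a) b
      rw [h2, one_mul] at this
      exact h.disj b hb.1 (this ▸ ha.2)
    · exfalso
      have := h.f1 a ha.1 b hb.1 (n * a * b) h2
      have e1 : a * (n * a * b) = n * b := by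
        rw [mul_comm n a, mul_assoc a n b, ← mul_assoc a a, h.sq, one_mul]
      have e2 : b * (n * a * b) = n * a := by
        rw [mul_comm b, h.mm]
      have e3 : a * b * (n * a * b) = n := by
        rw [mul_assoc n a b, mul_comm (a * b), h.mm]
      rw [e1, e2, e3] at this
      exact h.disj n (this h1 hb.2 ha.2) hn
    · exact h2

theorem Col.nb_sub {D : Subgroup G} {X Y : Set G} (h : Col D X Y) {n a : G} (hn : n ∈ Y)
    (ha : a ∈ nb X Y n) : nb X Y n ⊆ nb X Y (n * a) := by
  intro b hb
  refine ⟨hb.1, ?_⟩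
  by_cases hab : a = b
  · subst hab
    rw [h.mm]
    exact hn
  · exact h.step hn ha hb hab

theorem Col.nb_eq {D : Subgroup G} {X Y : Set G} (h : Col D X Y) {n a : G} (hn : n ∈ Y)
    (ha : a ∈ nb X Y n) : nb X Y (n * a) = nb X Y n := by
  apply Set.Subset.antisymm
  · have ha' : a ∈ nb X Y (n * a) := by
      refine ⟨ha.1, ?_⟩
      rw [h.mm]
      exact hn
    have := h.nb_sub ha.2 ha'
    rwa [h.mm] at this
  · exact h.nb_sub hn ha

theorem Col.comp {D : Subgroup G} {X Y : Set G} (h : Col D X Y) {n : G} (hn : n ∈ Y) :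
    ∀ g ∈ Subgroup.closure (nb X Y n), n * g ∈ Y ∧ nb X Y (n * g) = nb X Y n := by
  have key : ∀ g ∈ Subgroup.closure (nb X Y n),
      ∀ m ∈ Y, nb X Y m = nb X Y n → m * g ∈ Y ∧ nb X Y (m * g) = nb X Y n := by
    intro g hg
    induction hg using Subgroup.closure_induction with
    | mem x hx =>
      intro m hm hmn
      have hx' : x ∈ nb X Y m := hmn ▸ hx
      exact ⟨hx'.2, (h.nb_eq hm hx').trans hmn⟩
    | one =>
      intro m hm hmn
      rw [mul_one]
      exact ⟨hm, hmn⟩
    | mul x y _ _ hx hy =>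
      intro m hm hmn
      obtain ⟨h1, h2⟩ := hx m hm hmn
      rw [← mul_assoc]
      exact hy (m * x) h1 h2
    | inv x _ hx =>
      intro m hm hmn
      have : x⁻¹ = x := inv_eq_of_mul_eq_one_left (h.sq x)
      rw [this]
      exact hx m hm hmn
  intro g hg
  exact key g hg n hn rfl

theorem Col.notin {D : Subgroup G} {X Y : Set G} (h : Col D X Y) {n : G} (hn : n ∈ Y) :
    n ∉ Subgroup.closure (nb X Y n) := by
  intro h1
  have := (h.comp hn n h1).1
  rw [h.sq] at this
  exact h.oneY this

theorem Col.key [Finite G] {D : Subgroup G} {X Y : Set G} (h : Col D X Y) {s : G} (hs : s ∈ X)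
    (hmax : ∀ n ∈ Y, Nat.card (Subgroup.closure (nb X Y n)) ≤
      Nat.card (Subgroup.closure (nb Y X s))) : Subgroup.closure Y ≠ D := by
  intro hY
  set M := Subgroup.closure (nb Y X s) with hM
  have hsM : s ∉ M := h.symm.notin hs
  have h1 : ∃ n ∈ Y, n ∉ M := by
    by_contra h1
    push Not at h1
    apply hsM
    have : Subgroup.closure Y ≤ M := (Subgroup.closure_le M).2 h1
    exact this (hY.symm ▸ h.subX s hs)
  obtain ⟨n, hn, hnM⟩ := h1
  have h2 : ∀ g ∈ M, s * g ∈ Subgroup.closure (nb X Y n) := by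
    intro g hg
    obtain ⟨h3, h4⟩ := h.symm.comp hs g hg
    apply Subgroup.subset_closure
    refine ⟨h3, ?_⟩
    have hD : n * (s * g) ∈ D := D.mul_mem (h.subY n hn) (h.subX _ h3)
    rcases h.cov _ hD with h5 | h5 | h5
    · exfalso
      have h6 := h.mm n (s * g)
      rw [h5, one_mul] at h6
      exact h.disj _ h3 (h6.symm ▸ hn)
    · exfalso
      apply hnM
      apply Subgroup.subset_closure
      rw [← h4]
      refine ⟨hn, ?_⟩
      rwa [mul_comm] at h5
    · exact h5
  have hsG : s ∈ Subgroup.closure (nb X Y n) := by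
    have := h2 1 M.one_mem
    rwa [mul_one] at this
  have hle : M ≤ Subgroup.closure (nb X Y n) := by
    intro g hg
    have h3 := Subgroup.mul_mem _ hsG (h2 g hg)
    rwa [← mul_assoc, h.sq, one_mul] at h3
  have hlt : M < Subgroup.closure (nb X Y n) := by
    refine lt_of_le_of_ne hle ?_
    intro h3
    exact hsM (h3 ▸ hsG)
  have h4 : Nat.card M < Nat.card (Subgroup.closure (nb X Y n)) := by
    apply Set.ncard_lt_ncard (s := (M : Set G))
      (t := (Subgroup.closure (nb X Y n) : Set G)) hlt (Set.toFinite _)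
  exact absurd (hmax n hn) (not_le.2 h4)

/-- **The flag lemma.** One of the two colours generates a smaller group. -/
theorem Col.span [Finite G] {D : Subgroup G} {X Y : Set G} (h : Col D X Y)
    (hX : Subgroup.closure X = D) (hne : X.Nonempty) : Subgroup.closure Y ≠ D := by
  rcases Set.eq_empty_or_nonempty Y with hY | hY
  · subst hY
    obtain ⟨x, hx⟩ := hne
    rw [Subgroup.closure_empty]
    intro h1
    have : x ∈ (⊥ : Subgroup G) := h1 ▸ h.subX x hx
    rw [Subgroup.mem_bot] at this
    exact h.oneX (this ▸ hx)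
  · obtain ⟨s, hs, hs'⟩ := Set.exists_max_image X
      (fun g => Nat.card (Subgroup.closure (nb Y X g))) (Set.toFinite _) hne
    obtain ⟨n, hn, hn'⟩ := Set.exists_max_image Y
      (fun g => Nat.card (Subgroup.closure (nb X Y g))) (Set.toFinite _) hY
    by_cases hc : Nat.card (Subgroup.closure (nb X Y n)) ≤
        Nat.card (Subgroup.closure (nb Y X s))
    · exact h.key hs fun m hm => (hn' m hm).trans hc
    · exfalso
      push Not at hc
      exact h.symm.key hn (fun m hm => (hs' m hm).trans hc.le) hX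

end Colour

/-- for some quaternion `q (a, b) ≠ 0` neither the slots nor the non-slots (in the group generated
by the slots) form a triangle in a subgroup of order eight -/
def HasFlag (S : QStruct) : Prop :=
  ∃ a b, S.q a b ≠ S.zero ∧
    (∀ x ∈ Slots S a b, ∀ y ∈ Slots S a b, ∀ z ∈ Slots S a b, x * y ∉ Slots S a b →
      x * z ∉ Slots S a b → y * z ∉ Slots S a b → x * y * z ∈ Slots S a b) ∧
    (∀ x ∈ NonSlots S a b, ∀ y ∈ NonSlots S a b, ∀ z ∈ NonSlots S a b, x * y ∈ Slots S a b →
      x * z ∈ Slots S a b → y * z ∈ Slots S a b → x * y * z ∉ Slots S a b)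

/-- such a structure passes the slot test -/
theorem hasSpan_of_flag (S : QStruct) [Finite S.G] (h : HasFlag S) :
    HasSpan S := by
  obtain ⟨a, b, hab, h1, h2⟩ := h
  right
  refine ⟨a, b, hab, ?_⟩
  have hz1 : ∀ y : S.G, S.q 1 y = S.zero := by
    intro y
    rw [S.qs2]
    have := (S.qs3 y 1 1).1 rfl
    rwa [one_mul] at this
  have hone : (1 : S.G) ∉ Slots S a b := by
    rintro ⟨y, hy⟩
    apply hab
    rw [← hy, hz1]
  have hcol : Col (Subgroup.closure (Slots S a b)) (Slots S a b)
      {v | v ∈ NonSlots S a b ∧ v ≠ 1} := by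
    refine ⟨S.exp_two, fun g hg => Subgroup.subset_closure hg, fun g hg => hg.1.1,
      fun g hg hg' => hg'.1.2 hg, hone, fun h => h.2 rfl, ?_, ?_, ?_⟩
    · intro g hg
      by_cases h3 : g = 1
      · exact Or.inl h3
      · by_cases h4 : g ∈ Slots S a b
        · exact Or.inr (Or.inl h4)
        · exact Or.inr (Or.inr ⟨⟨hg, h4⟩, h3⟩)
    · intro x hx y hy z hz h3 h4 h5
      exact h1 x hx y hy z hz h3.1.2 h4.1.2 h5.1.2
    · intro x hx y hy z hz h3 h4 h5
      have h6 := h2 x hx.1 y hy.1 z hz.1 h3 h4 h5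
      refine ⟨⟨Subgroup.mul_mem _ (Subgroup.mul_mem _ hx.1.1 hy.1.1) hz.1.1, h6⟩, ?_⟩
      intro h7
      have h8 : x * y = z := by
        have h9 := S.exp_two z
        calc x * y = x * y * (z * z) := by rw [h9, mul_one]
          _ = x * y * z * z := by rw [mul_assoc, mul_assoc, mul_assoc]
          _ = z := by rw [h7, one_mul]
      exact hz.1.2 (h8 ▸ h3)
  have hspan := hcol.span rfl ⟨a, b, rfl⟩
  intro h3
  apply hspan
  apply le_antisymm
  · exact (Subgroup.closure_le _).2 fun g hg => hg.1.1
  · rw [← h3]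
    apply (Subgroup.closure_le _).2
    intro g hg
    by_cases h4 : g = 1
    · rw [h4]
      exact Subgroup.one_mem _
    · exact Subgroup.subset_closure ⟨hg, h4⟩

/-- a structure with `-1 = 1` all of whose smaller structures are of elementary type and which
has such a quaternion is of elementary type -/
theorem top_of_flag (S : QStruct) [Finite S.G] (hneg : S.neg = 1)
    (hT : ∀ T : QStruct, Finite T.G → T.neg = 1 → Nat.card T.G < Nat.card S.G → ElemType T)
    (h : HasFlag S) : ElemType S :=
  top_span S hneg hT (hasSpan_of_flag S h)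

/-- **The flag door.** -/
theorem all_of_flag
    (h : ∀ S : QStruct, Finite S.G → S.neg = 1 →
      (∀ T : QStruct, Finite T.G → T.neg = 1 → Nat.card T.G < Nat.card S.G → ElemType T) →
      ¬ ElemType S → HasFlag S) :
    ∀ S : QStruct, Finite S.G → S.neg = 1 → ElemType S := by
  intro S hf hneg
  induction hn : Nat.card S.G using Nat.strong_induction_on generalizing S with
  | _ n ih =>
    subst hn
    have hT : ∀ T : QStruct, Finite T.G → T.neg = 1 → Nat.card T.G < Nat.card S.G →
        ElemType T := fun T hf' hn' hc => ih (Nat.card T.G) hc T hf' hn' rfl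
    by_contra hS
    exact hS (top_of_flag S hneg hT (h S hf hneg hT hS))

end Pool.Agent.RDC
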