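import Pool.Agent.RDC.StabQ
import Pool.Agent.RDC.Flag

/-!
The door of an isolated slot (notes 2152, 2157, 2186): some slot `g` of a quaternion is such that
every non-slot `n` with `g n` a slot is a stabilizer of the set of slots.
-/

set_option autoImplicit false
set_option linter.unusedSectionVars false

namespace Pool.Agent.RDC

open QS Pool.Agent.RFT Pool.Agent.ETG Pool.Agent.RFN Pool.Agent.AST Pool.Agent.LSS
open Pool.Agent.Helper58.PLine (QData)

/-- some quaternion `q (a, b) ≠ 0` has a slot `g` such that all non-slots `n` for which `g n` is a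
slot are stabilizers of the set of slots -/
def HasIso (S : QStruct) : Prop :=
  ∃ a b, S.q a b ≠ S.zero ∧ ∃ g ∈ Slots S a b, ∀ n, n ∉ Slots S a b → g * n ∈ Slots S a b →
      ∀ y ∈ Slots S a b, y * n ∈ Slots S a b

theorem hasStab_of_iso (S : QStruct) (h : HasIso S) : HasStab S := by
  obtain ⟨a, b, hab, g, ⟨w, hw⟩, h1⟩ := h
  refine ⟨a, b, hab, w, ⟨g, by rw [S.qs2]; exact hw⟩, ?_⟩
  intro n hn hn' y hy
  refine h1 n hn' ⟨w, ?_⟩ y hy
  have h2 : S.q w (g * n) = S.q w g := by
    apply (S.qs3 _ _ _).2
    have e : g * n * g = n := by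
      rw [mul_comm g n, mul_assoc, S.exp_two, mul_one]
    rw [e]
    exact hn
  rw [S.qs2, h2, S.qs2]
  exact hw

/-- a structure with `-1 = 1` all of whose smaller structures are of elementary type and which
has such a slot is of elementary type -/
theorem top_of_iso (S : QStruct) [Finite S.G] (hneg : S.neg = 1)
    (hT : ∀ T : QStruct, Finite T.G → T.neg = 1 → Nat.card T.G < Nat.card S.G → ElemType T)
    (h : HasIso S) : ElemType S :=
  top_of_stab S hneg hT (hasStab_of_iso S h)

/-- **The door of an isolated slot.** -/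
theorem all_of_iso
    (h : ∀ S : QStruct, Finite S.G → S.neg = 1 →
      (∀ T : QStruct, Finite T.G → T.neg = 1 → Nat.card T.G < Nat.card S.G → ElemType T) →
      ¬ ElemType S → HasIso S) :
    ∀ S : QStruct, Finite S.G → S.neg = 1 → ElemType S :=
  all_of_stab fun S h1 h2 h3 h4 => hasStab_of_iso S (h S h1 h2 h3 h4)

end Pool.Agent.RDC
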