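import Pool.Agent.LSS.Main
import Pool.Agent.RDC.A24

/-!
Bridge: a pair (symbol `c`, slot `z`) as in Theorem 24A+ in a minimal counterexample is
impossible.
-/

set_option autoImplicit false
set_option linter.unusedSectionVars false

namespace Pool.Agent.RDC

open QS Pool.Agent.RFT Pool.Agent.ETG Pool.Agent.RFN Pool.Agent.AST Pool.Agent.LSS
open Pool.Agent.Helper58.PLine (QData)

/-- some quaternion `q (a, b) ≠ 0` has a slot `z` such that all elements `u ≠ 1` commuting with
`z` are slots of it, and for all `x` in the group generated by its slots `x` or `x z` is a slot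
of it -/
def Has24 (S : QStruct) : Prop :=
  ∃ a b, S.q a b ≠ S.zero ∧ ∃ z ∈ Slots S a b,
    (∀ u, S.q z u = S.zero → u ≠ 1 → u ∈ Slots S a b) ∧
    ∀ x ∈ Subgroup.closure (Slots S a b), x ∈ Slots S a b ∨ x * z ∈ Slots S a b

/-- a structure with `-1 = 1` all of whose smaller structures are of elementary type and which
has an element of rank at most one or a prime functional is of elementary type -/
theorem elem_of_prime (S : QStruct) [Finite S.G] (hneg : S.neg = 1)
    (hT : ∀ T : QStruct, Finite T.G → T.neg = 1 → Nat.card T.G < Nat.card S.G → ElemType T)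
    (h : (∃ x : Additive S.G, x ≠ 0 ∧ ∀ v w : Additive S.G, ETCP.C (toD S hneg) x v ∨
      ETCP.C (toD S hneg) x w ∨ ETCP.C (toD S hneg) x (v + w)) ∨
      ∃ φ : Additive S.G →ₗ[ZMod 2] ZMod 2, φ ≠ 0 ∧
      ∀ p p', (∃ v, ETCP.C (toD S hneg) p v ∧ φ v = 1) →
        (∃ v, ETCP.C (toD S hneg) p' v ∧ φ v = 1) →
        (∃ v, ETCP.C (toD S hneg) (p + p') v ∧ φ v = 1) →
        ∃ v, ETCP.C (toD S hneg) p v ∧ ETCP.C (toD S hneg) p' v ∧ φ v = 1) :
    ElemType S := by
  by_contra hS
  have hET : ¬ ETZ (ZS S) := fun h' => hS (h' S (qof S hneg))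
  have hLZ := lzs S hneg
  have hsm := smaller S hT
  obtain ⟨h1, -⟩ := RED (Additive S.G) (ZS S) hLZ hsm hET
  rcases h with ⟨x, hx, hx'⟩ | ⟨φ, hφ0, hφ⟩
  · exact hx (h1 x hx')
  · exact hET (ASZ (Additive S.G) (ZS S) hLZ hsm ⟨φ, hφ0, hφ⟩)

/-- **Theorem 24A+ for quaternionic structures.** -/
theorem top24 (S : QStruct) [Finite S.G] (hneg : S.neg = 1)
    (hT : ∀ T : QStruct, Finite T.G → T.neg = 1 → Nat.card T.G < Nat.card S.G → ElemType T)
    (h : Has24 S) : ElemType S := by
  obtain ⟨a, b, hab, z, hz, h1, h2⟩ := h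
  apply elem_of_prime S hneg hT
  set D := toD S hneg with hD'
  have he : D.e = 0 := rfl
  have hc0 : S.q a b ≠ D.z := hab
  have hSl : ∀ x : Additive S.G, SlQ D (S.q a b) x ↔ Additive.toMul x ∈ Slots S a b := by
    intro x
    constructor
    · rintro ⟨y, hy⟩
      exact ⟨Additive.toMul y, hy⟩
    · rintro ⟨y, hy⟩
      exact ⟨Additive.ofMul y, hy⟩
  have hcs : ∃ x, SlQ D (S.q a b) x := ⟨Additive.ofMul a, Additive.ofMul b, rfl⟩
  have hD : ∀ x : Additive S.G, x ∈ DcQ D (S.q a b) hcs ↔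
      Additive.toMul x ∈ Subgroup.closure (Slots S a b) := by
    intro x
    rw [DcQ_eq_span he, ← span_closure]
    have : {x | SlQ D (S.q a b) x} = {x : Additive S.G | Additive.toMul x ∈ Slots S a b} :=
      Set.ext fun x => hSl x
    rw [this]
  refine prime24 (S := D) he hc0 hcs (z := Additive.ofMul z) ((hSl _).2 hz) ?_ ?_
  · intro u hu hu0
    exact (hSl u).2 (h1 (Additive.toMul u) hu hu0)
  · intro x hx
    rcases h2 (Additive.toMul x) ((hD x).1 hx) with h | h
    · exact Or.inl ((hSl x).2 h)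
    · exact Or.inr ((hSl (x + Additive.ofMul z)).2 h)

end Pool.Agent.RDC
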