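import Pool.Agent.RDC.Main

/-!
THEOREM P of note 2129 (helper32), direction used for Theorem 24A+, with a proof by integer
matrices.  `c ≠ 0` a symbol of a finite linked structure, `S` its slots, `z` a slot.  If every
non-slot commuting with `z` is a stabilizer of `S`, then `z + n ∈ S` for every non-slot `n` that
commutes with some slot.
-/

set_option autoImplicit false
set_option linter.unusedSectionVars false
set_option linter.unusedSimpArgs false

namespace Pool.Agent.RDC

open Finset ETC Pool.Agent.ETCP Pool.Agent.LSS Matrix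
open Pool.Agent.Helper58.PLine (QData)

variable {V Q : Type} [AddCommGroup V] [Module (ZMod 2) V] {S : QData V Q}

theorem ind_mul (p r : Prop) : ind p * ind r = ind (p ∧ r) := by
  unfold ind
  by_cases hp : p <;> by_cases hr : r <;> simp [hp, hr]

theorem ind_nonneg' (p : Prop) : 0 ≤ ind p := by
  unfold ind
  split_ifs <;> norm_num

theorem ind_true' {p : Prop} (h : p) : ind p = 1 := by
  unfold ind
  rw [if_pos h]

/-- two slots have as many common `c`-partners as common commuting elements -/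
theorem sum_tt [Fintype V] {c : Q} {x y : V} (hx : SlQ S c x) (hy : SlQ S c y) :
    ∑ w, ind (S.q x w = c ∧ S.q y w = c) = ∑ w, ind (C S x w ∧ C S y w) := by
  obtain ⟨a, ha⟩ := hx
  obtain ⟨b, hb⟩ := hy
  obtain ⟨t, h1, h2⟩ := S.link x a y b (ha.trans hb.symm)
  have h1' : S.q x t = c := by rw [← h1, ha]
  have h2' : S.q y t = c := by rw [← h2, hb]
  rw [← Equiv.sum_comp (Equiv.addRight t)]
  apply Finset.sum_congr rfl
  intro w _
  apply ind_congr
  simp only [Equiv.coe_addRight]
  have k : ∀ x, S.q x t = c → (S.q x (w + t) = c ↔ C S x w) := by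
    intro x hx
    constructor
    · intro h
      exact (ETCP.q_eq_iff.1 (h.trans hx.symm)).of_eq rfl
        (by rw [add_assoc, ZModModule.add_self, add_zero])
    · intro h
      rw [← hx]
      exact q_eq (h.of_eq rfl (by rw [add_assoc, ZModModule.add_self, add_zero]))
  rw [k x h1', k y h2']

/-- the mixed count -/
theorem sum_ta [Fintype V] {c : Q} {x y : V} (hx : SlQ S c x) (hy : SlQ S c (x + y)) :
    ∑ w, ind (S.q x w = c ∧ C S y w) = ∑ w, ind (C S x w ∧ C S y w) := by
  obtain ⟨a, ha⟩ := hx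
  obtain ⟨b, hb⟩ := hy
  obtain ⟨t, h1, h2⟩ := S.link x a (x + y) b (ha.trans hb.symm)
  have h1' : S.q x t = c := by rw [← h1, ha]
  have h2' : S.q (x + y) t = c := by rw [← h2, hb]
  have h3 : C S y t := (q_eq'_iff.1 (h1'.trans h2'.symm)).of_eq
    (by rw [← add_assoc, ZModModule.add_self, zero_add]) rfl
  rw [← Equiv.sum_comp (Equiv.addRight t)]
  apply Finset.sum_congr rfl
  intro w _
  apply ind_congr
  simp only [Equiv.coe_addRight]
  have k : (S.q x (w + t) = c ↔ C S x w) := by
    constructor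
    · intro h
      exact (ETCP.q_eq_iff.1 (h.trans h1'.symm)).of_eq rfl
        (by rw [add_assoc, ZModModule.add_self, add_zero])
    · intro h
      rw [← h1']
      exact q_eq (h.of_eq rfl (by rw [add_assoc, ZModModule.add_self, add_zero]))
  rw [k]
  constructor
  · rintro ⟨e1, e2⟩
    refine ⟨e1, ?_⟩
    exact (e2.add h3).of_eq rfl (by rw [add_assoc, ZModModule.add_self, add_zero])
  · rintro ⟨e1, e2⟩
    exact ⟨e1, e2.add h3⟩

theorem not_ta {c : Q} {x y w : V} (h1 : S.q x w = c) (h2 : C S y w) : SlQ S c (x + y) := by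
  refine ⟨w, ?_⟩
  rw [← h1]
  exact (q_eq' (h2.of_eq (by rw [← add_assoc, ZModModule.add_self, zero_add]) rfl)).symm

section Mat
variable [Fintype V] (S) (c : Q)

open Classical in
/-- `[q = c]` on the slots -/
noncomputable def MT : Matrix {x // SlQ S c x} {x // SlQ S c x} ℤ := fun x y => ind (S.q x y = c)
/-- `[q = 0]` on the slots -/
noncomputable def MA : Matrix {x // SlQ S c x} {x // SlQ S c x} ℤ := fun x y => ind (C S x y)
/-- `[q = 0]` between slots and non-slots -/
noncomputable def MZ : Matrix {x // SlQ S c x} {x // ¬ SlQ S c x} ℤ := fun x y => ind (C S x y)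
/-- `[q = 0]` on the non-slots -/
noncomputable def MN : Matrix {x // ¬ SlQ S c x} {x // ¬ SlQ S c x} ℤ := fun x y => ind (C S x y)

end Mat

theorem csym {x y : V} : C S x y ↔ C S y x := ⟨fun h => h.symm, fun h => h.symm⟩

theorem MT_symm [Fintype V] {c : Q} : (MT S c)ᵀ = MT S c := by
  ext x y
  simp only [Matrix.transpose_apply, MT]
  exact ind_congr (by rw [S.symm])

theorem MA_symm [Fintype V] {c : Q} : (MA S c)ᵀ = MA S c := by
  ext x y
  simp only [Matrix.transpose_apply, MA]
  exact ind_congr csym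

theorem MN_symm [Fintype V] {c : Q} : (MN S c)ᵀ = MN S c := by
  ext x y
  simp only [Matrix.transpose_apply, MN]
  exact ind_congr csym

open Classical in
theorem sum_split [Fintype V] {c : Q} (f : V → ℤ) :
    ∑ x : {x // SlQ S c x}, f x + ∑ x : {x // ¬ SlQ S c x}, f x = ∑ x, f x :=
  Fintype.sum_subtype_add_sum_subtype (SlQ S c) f

open Classical in
theorem sum_slots [Fintype V] {c : Q} (f : V → ℤ) (hf : ∀ x, ¬ SlQ S c x → f x = 0) :
    ∑ x : {x // SlQ S c x}, f x = ∑ x, f x := by
  rw [← sum_split (S := S) (c := c) f, left_eq_add]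
  exact Finset.sum_eq_zero fun x _ => hf x x.2

open Classical in
theorem TT_eq [Fintype V] {c : Q} :
    MT S c * MT S c = MA S c * MA S c + MZ S c * (MZ S c)ᵀ := by
  ext x y
  rw [Matrix.add_apply, Matrix.mul_apply, Matrix.mul_apply, Matrix.mul_apply]
  simp only [MT, MA, MZ, Matrix.transpose_apply, ind_mul]
  have e1 : ∑ w : {x // SlQ S c x}, ind (S.q x w = c ∧ S.q w y = c) =
      ∑ w, ind (S.q x w = c ∧ S.q y w = c) := by
    rw [← sum_slots (S := S) (c := c) (fun w => ind (S.q x w = c ∧ S.q y w = c))]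
    · exact Finset.sum_congr rfl fun w _ => ind_congr (by rw [S.symm (w : V) y])
    · intro w hw
      exact ind_false fun h => hw ⟨x, by rw [S.symm, h.1]⟩
  rw [e1, sum_tt x.2 y.2, ← sum_split (S := S) (c := c)]
  congr 1
  exact Finset.sum_congr rfl fun w _ => ind_congr (by rw [csym (x := (y : V))])

open Classical in
theorem TA_apply [Fintype V] {c : Q} (x : {x // SlQ S c x}) (y : V) :
    ∑ w : {x // SlQ S c x}, MT S c x w * ind (C S w y) = ∑ w, ind (S.q x w = c ∧ C S y w) := by
  rw [← sum_slots (S := S) (c := c) (fun w => ind (S.q x w = c ∧ C S y w))]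
  · apply Finset.sum_congr rfl
    intro w _
    simp only [MT, ind_mul]
    exact ind_congr (by rw [csym])
  · intro w hw
    exact ind_false fun h => hw ⟨x, by rw [S.symm, h.1]⟩

open Classical in
theorem TA_comm [Fintype V] {c : Q} : MT S c * MA S c = MA S c * MT S c := by
  have key : ∀ x y, (MT S c * MA S c) x y = (MT S c * MA S c) y x := by
    intro x y
    rw [Matrix.mul_apply, Matrix.mul_apply]
    have e1 := TA_apply (S := S) (c := c) x (y : V)
    have e2 := TA_apply (S := S) (c := c) y (x : V)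
    simp only [MA]
    rw [e1, e2]
    by_cases h : SlQ S c ((x : V) + y)
    · rw [sum_ta x.2 h, sum_ta y.2 (by rwa [add_comm])]
      exact Finset.sum_congr rfl fun w _ => ind_congr and_comm
    · rw [Finset.sum_eq_zero, Finset.sum_eq_zero]
      · intro w _
        exact ind_false fun h' => h (by rw [add_comm]; exact not_ta h'.1 h'.2)
      · intro w _
        exact ind_false fun h' => h (not_ta h'.1 h'.2)
  have h1 : MT S c * MA S c = (MT S c * MA S c)ᵀ := by
    ext x y
    rw [Matrix.transpose_apply]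
    exact key x y
  rw [h1, Matrix.transpose_mul, MT_symm, MA_symm]

open Classical in
/-- the common commuting elements of `x` and `n` -/
theorem M_apply [Fintype V] {c : Q} (x : {x // SlQ S c x}) (n : {x // ¬ SlQ S c x}) :
    (MA S c * MZ S c + MZ S c * MN S c) x n = ∑ w, ind (C S x w ∧ C S n w) := by
  rw [Matrix.add_apply, Matrix.mul_apply, Matrix.mul_apply,
    ← sum_split (S := S) (c := c) (fun w => ind (C S x w ∧ C S n w))]
  simp only [MA, MZ, MN, ind_mul]
  congr 1
  · exact Finset.sum_congr rfl fun w _ => ind_congr (by rw [csym (x := (n : V))])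
  · exact Finset.sum_congr rfl fun w _ => ind_congr (by rw [csym (x := (n : V))])

open Classical in
theorem TZ_eq [Fintype V] {c : Q} (x : {x // SlQ S c x}) (n : {x // ¬ SlQ S c x})
    (h : SlQ S c ((x : V) + n)) :
    (MT S c * MZ S c) x n = (MA S c * MZ S c + MZ S c * MN S c) x n := by
  rw [M_apply, Matrix.mul_apply]
  have e1 := TA_apply (S := S) (c := c) x (n : V)
  simp only [MZ]
  rw [e1, sum_ta x.2 h]

open Classical in
theorem TZ_zero [Fintype V] {c : Q} (x : {x // SlQ S c x}) (n : {x // ¬ SlQ S c x})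
    (h : ¬ SlQ S c ((x : V) + n)) : (MT S c * MZ S c) x n = 0 := by
  rw [Matrix.mul_apply]
  have e1 := TA_apply (S := S) (c := c) x (n : V)
  simp only [MZ]
  rw [e1]
  exact Finset.sum_eq_zero fun w _ => ind_false fun h' => h (not_ta h'.1 h'.2)

open Classical in
theorem M_pos [Fintype V] {c : Q} (x : {x // SlQ S c x}) (n : {x // ¬ SlQ S c x}) :
    0 < (MA S c * MZ S c + MZ S c * MN S c) x n := by
  rw [M_apply]
  apply Finset.sum_pos' (fun w _ => ind_nonneg' _)
  exact ⟨0, Finset.mem_univ _, by rw [ind_true' ⟨C.zero _, C.zero _⟩]; norm_num⟩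

open Classical in
/-- **Theorem P.** -/
theorem nn_of_stab [Finite V] {c : Q} {z : V} (hz : SlQ S c z)
    (hst : ∀ m, C S z m → ¬ SlQ S c m → ∀ y, SlQ S c y → SlQ S c (y + m))
    {y n : V} (hy : SlQ S c y) (hyn : C S y n) (hn : ¬ SlQ S c n) : SlQ S c (z + n) := by
  have := Fintype.ofFinite V
  by_contra hzn
  set T := MT S c with hT
  set A := MA S c with hA
  set Z := MZ S c with hZ
  set N := MN S c with hN
  let D := A * Z + Z * N - T * Z
  have hD : ∀ (x : {x // SlQ S c x}) (n : {x // ¬ SlQ S c x}), 0 ≤ D x n := by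
    intro x n
    simp only [D, Matrix.sub_apply]
    by_cases h : SlQ S c ((x : V) + n)
    · rw [hT, hZ, TZ_eq x n h, sub_self]
    · rw [hT, hZ, TZ_zero x n h, sub_zero]
      exact (M_pos x n).le
  have hD1 : ∀ (x : {x // SlQ S c x}) (n : {x // ¬ SlQ S c x}),
      SlQ S c ((x : V) + n) → D x n = 0 := by
    intro x n h
    simp only [D, Matrix.sub_apply]
    rw [hT, hZ, TZ_eq x n h, sub_self]
  have hD0 : 0 < D ⟨z, hz⟩ ⟨n, hn⟩ := by
    simp only [D, Matrix.sub_apply]
    rw [hT, hZ, TZ_zero ⟨z, hz⟩ ⟨n, hn⟩ hzn, sub_zero]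
    exact M_pos _ _
  -- `Z Zᵀ` commutes with `T - A`
  have hc1 : Z * Zᵀ = T * T - A * A := by
    rw [hT, hA, hZ, TT_eq, add_sub_cancel_left]
  have hcomm : (A - T) * (Z * Zᵀ) + (Z * Zᵀ) * (T - A) = 0 := by
    have h0 : T * A = A * T := TA_comm
    rw [hc1]
    have e : (A - T) * (T * T - A * A) + (T * T - A * A) * (T - A) =
        (A * T) * T - T * (T * A) + (T * A) * A - A * (A * T) := by
      noncomm_ring
    rw [e, ← h0, Matrix.mul_assoc T A T, ← h0, Matrix.mul_assoc T A A, ← Matrix.mul_assoc A T A,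
      ← h0, Matrix.mul_assoc T A A]
    simp
  have hs1 : (T - A)ᵀ = T - A := by
    rw [Matrix.transpose_sub, hT, hA, MT_symm, MA_symm]
  have key : (D * Zᵀ) ⟨z, hz⟩ ⟨y, hy⟩ = 0 := by
    have e1 : D * Zᵀ = (A - T) * (Z * Zᵀ) + Z * (N * Zᵀ) := by
      simp only [D]
      rw [Matrix.sub_mul, Matrix.add_mul, Matrix.sub_mul, Matrix.mul_assoc, Matrix.mul_assoc,
        Matrix.mul_assoc]
      abel
    have e2 : (Z * (N * Zᵀ)) ⟨z, hz⟩ ⟨y, hy⟩ = ((Z * Zᵀ) * (T - A)) ⟨z, hz⟩ ⟨y, hy⟩ := by
      have e3 : (Z * Zᵀ) * (T - A) = Z * ((T - A) * Z)ᵀ := by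
        rw [Matrix.transpose_mul, hs1, Matrix.mul_assoc]
      have e4 : N * Zᵀ = (Z * N)ᵀ := by
        rw [Matrix.transpose_mul, hN, MN_symm]
      rw [e3, e4, Matrix.mul_apply, Matrix.mul_apply]
      apply Finset.sum_congr rfl
      rintro ⟨m, hm⟩ _
      by_cases hzm : C S z m
      · have h5 := hD1 ⟨y, hy⟩ ⟨m, hm⟩ (hst m hzm hm y hy)
        have h6 : (Z * N) ⟨y, hy⟩ ⟨m, hm⟩ = ((T - A) * Z) ⟨y, hy⟩ ⟨m, hm⟩ := by
          simp only [D, Matrix.sub_apply, Matrix.add_apply] at h5
          rw [Matrix.sub_mul, Matrix.sub_apply]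
          linarith
        rw [Matrix.transpose_apply, Matrix.transpose_apply, h6]
      · have : Z ⟨z, hz⟩ ⟨m, hm⟩ = 0 := by
          simp only [hZ, MZ]
          exact ind_false hzm
        rw [this, zero_mul, zero_mul]
    rw [e1, Matrix.add_apply, e2, ← Matrix.add_apply, hcomm]
    rfl
  rw [Matrix.mul_apply] at key
  have h7 := (Finset.sum_eq_zero_iff_of_nonneg (fun m _ => by
    apply mul_nonneg (hD _ _)
    simp only [hZ, MZ, Matrix.transpose_apply]
    exact ind_nonneg' _)).1 key ⟨n, hn⟩ (Finset.mem_univ _)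
  have h8 : Zᵀ ⟨n, hn⟩ ⟨y, hy⟩ = 1 := by
    simp only [hZ, MZ, Matrix.transpose_apply]
    exact ind_true' hyn
  rw [h8, mul_one] at h7
  exact hD0.ne' h7

/-- 24A+ with the second hypothesis removed: a symbol `c ≠ 0` and a slot `z` such that all
elements `≠ 0` commuting with `z` are slots of `c` -/
theorem prime_pair [Finite V] (he : S.e = 0) {c : Q} (hc0 : c ≠ S.z) (hc : ∃ x, SlQ S c x)
    {z : V} (hz : SlQ S c z) (ha : ∀ u, C S z u → u ≠ 0 → SlQ S c u) :
    (∃ x, x ≠ 0 ∧ ∀ v w, C S x v ∨ C S x w ∨ C S x (v + w)) ∨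
    ∃ φ : V →ₗ[ZMod 2] ZMod 2, φ ≠ 0 ∧
      ∀ p p', (∃ v, C S p v ∧ φ v = 1) → (∃ v, C S p' v ∧ φ v = 1) →
        (∃ v, C S (p + p') v ∧ φ v = 1) → ∃ v, C S p v ∧ C S p' v ∧ φ v = 1 := by
  apply prime24 he hc0 hc hz ha
  intro x hx
  by_cases h : SlQ S c x
  · exact Or.inl h
  · right
    obtain ⟨y, hy, hyx⟩ := hx
    rw [add_comm]
    refine nn_of_stab hz ?_ hy hyx h
    intro m hm hm' y hy
    by_cases hm0 : m = 0
    · rw [hm0, add_zero]; exact hy
    · exact absurd (ha m hm hm0) hm'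

end Pool.Agent.RDC
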