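import Pool.Agent.RDC.NN

/-!
The door one pair: a symbol `c ≠ 0` and a slot `z` of `c` such that every element `u ≠ 1`
commuting with `z` is a slot of `c`.
-/

set_option autoImplicit false
set_option linter.unusedSectionVars false

namespace Pool.Agent.RDC

open QS Pool.Agent.RFT Pool.Agent.ETG Pool.Agent.RFN Pool.Agent.AST Pool.Agent.LSS
open Pool.Agent.Helper58.PLine (QData)

/-- some quaternion `q (a, b) ≠ 0` has a slot `z` such that all elements `u ≠ 1` commuting with
`z` are slots of it -/
def HasPair (S : QStruct) : Prop :=
  ∃ a b, S.q a b ≠ S.zero ∧ ∃ z ∈ Slots S a b, ∀ u, S.q z u = S.zero → u ≠ 1 → u ∈ Slots S a b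

/-- a structure with `-1 = 1` all of whose smaller structures are of elementary type and which
has such a pair is of elementary type -/
theorem top_of_pair (S : QStruct) [Finite S.G] (hneg : S.neg = 1)
    (hT : ∀ T : QStruct, Finite T.G → T.neg = 1 → Nat.card T.G < Nat.card S.G → ElemType T)
    (h : HasPair S) : ElemType S := by
  obtain ⟨a, b, hab, z, hz, h1⟩ := h
  apply elem_of_prime S hneg hT
  set D := toD S hneg with hD'
  have he : D.e = 0 := rfl
  have hc0 : S.q a b ≠ D.z := hab
  have hSl : ∀ x : Additive S.G, SlQ D (S.q a b) x ↔ Additive.toMul x ∈ Slots S a b := by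
    intro x
    constructor
    · rintro ⟨y, hy⟩
      exact ⟨Additive.toMul y, hy⟩
    · rintro ⟨y, hy⟩
      exact ⟨Additive.ofMul y, hy⟩
  have hcs : ∃ x, SlQ D (S.q a b) x := ⟨Additive.ofMul a, Additive.ofMul b, rfl⟩
  refine prime_pair (S := D) he hc0 hcs (z := Additive.ofMul z) ((hSl _).2 hz) ?_
  intro u hu hu0
  exact (hSl u).2 (h1 (Additive.toMul u) hu hu0)

/-- **The door one pair.**  If every finite quaternionic structure with `-1 = 1`, all of whose
smaller structures are of elementary type and which is not of elementary type, has such a pair,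
then all finite structures with `-1 = 1` are of elementary type. -/
theorem all_of_pair
    (h : ∀ S : QStruct, Finite S.G → S.neg = 1 →
      (∀ T : QStruct, Finite T.G → T.neg = 1 → Nat.card T.G < Nat.card S.G → ElemType T) →
      ¬ ElemType S → HasPair S) :
    ∀ S : QStruct, Finite S.G → S.neg = 1 → ElemType S := by
  intro S hf hneg
  induction hn : Nat.card S.G using Nat.strong_induction_on generalizing S with
  | _ n ih =>
    subst hn
    have hT : ∀ T : QStruct, Finite T.G → T.neg = 1 → Nat.card T.G < Nat.card S.G →
        ElemType T := fun T hf' hn' hc => ih (Nat.card T.G) hc T hf' hn' rfl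
    by_contra hS
    exact hS (top_of_pair S hneg hT (h S hf hneg hT hS))

end Pool.Agent.RDC
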