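import Pool.Agent.RDC.UnivQ

/-!
Note 2148 (helper96): the stabilizer case for every symbol.  `c ≠ 0` a symbol of a finite linked
structure with `-1 = 1`, `G = D(c)`, `z` a slot of `c` such that every non-slot commuting with
`z` is a stabilizer of the set of slots.  Then the non-slots in `G` lie in a hyperplane of `G`.
-/

set_option autoImplicit false
set_option linter.unusedSectionVars false
set_option linter.unusedSimpArgs false

namespace Pool.Agent.RDC

open Finset ETC Pool.Agent.ETCP Pool.Agent.LSS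
open Pool.Agent.Helper58.PLine (QData)

section Fam
variable {W ι κ : Type} [AddCommGroup W] [Module (ZMod 2) W]

/-- **Closure for families of subspaces, modulo a subspace.** -/
theorem closure_mod [Finite W] [Fintype ι] (E : ι → Submodule (ZMod 2) W)
    (U : Submodule (ZMod 2) W)
    (h : ∀ w' : W, w' ∉ U → ∃ (κ : Type) (_ : Fintype κ) (E' : κ → Submodule (ZMod 2) W),
      ∀ w, cnt E w * cnt E (w + w') = cnt E' w) {χ₁ χ₂ : D W}
    (h₁ : ∃ i, ∀ w ∈ E i, χ₁ w = 0) (h₂ : ∃ i, ∀ w ∈ E i, χ₂ w = 0)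
    (hU : ∀ u ∈ U, χ₂ u = 0) :
    ∃ i, ∀ w ∈ E i, (χ₁ + χ₂) w = 0 := by
  classical
  have := Fintype.ofFinite W
  by_contra hc
  have z1 : ∑ w : W, cnt E w * sg ((χ₁ + χ₂) w) = 0 := sum_cnt_zero hc
  have hnn : ∀ y : W, y ∉ U → 0 ≤ ∑ w : W, cnt E w * cnt E (w + y) * sg ((χ₁ + χ₂) w) := by
    intro y hy
    obtain ⟨κ, _, E', hE'⟩ := h y hy
    rw [Finset.sum_congr rfl fun w _ => by rw [hE' w]]
    exact sum_cnt_nonneg E' _
  have z2 : ∑ y : W, ∑ w : W, cnt E w * cnt E (w + y) * sg ((χ₁ + χ₂) w) = 0 := by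
    rw [Finset.sum_comm]
    have : ∀ w : W, ∑ y : W, cnt E w * cnt E (w + y) * sg ((χ₁ + χ₂) w) =
        (cnt E w * sg ((χ₁ + χ₂) w)) * ∑ v : W, cnt E v := by
      intro w
      rw [← Equiv.sum_comp (Equiv.addLeft w) (fun v => cnt E v), Finset.mul_sum]
      apply Finset.sum_congr rfl
      intro y _
      simp only [Equiv.coe_addLeft]
      ring
    rw [Finset.sum_congr rfl fun w _ => this w, ← Finset.sum_mul, z1, zero_mul]
  have z4 : ∑ y : W, (∑ w : W, cnt E w * cnt E (w + y) * sg ((χ₁ + χ₂) w)) * sg (χ₂ y) =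
      (∑ w : W, cnt E w * sg (χ₁ w)) * ∑ v : W, cnt E v * sg (χ₂ v) := by
    rw [Finset.sum_congr rfl fun y _ => Finset.sum_mul _ _ _, Finset.sum_comm, Finset.sum_mul]
    apply Finset.sum_congr rfl
    intro w _
    rw [← Equiv.sum_comp (Equiv.addLeft w) (fun v => cnt E v * sg (χ₂ v)), Finset.mul_sum]
    apply Finset.sum_congr rfl
    intro y _
    simp only [Equiv.coe_addLeft]
    rw [LinearMap.add_apply, sg_add, map_add χ₂, sg_add]
    ring
  have z5 : ∑ y : W, (∑ w : W, cnt E w * cnt E (w + y) * sg ((χ₁ + χ₂) w)) * sg (χ₂ y) ≤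
      ∑ y : W, ∑ w : W, cnt E w * cnt E (w + y) * sg ((χ₁ + χ₂) w) := by
    apply Finset.sum_le_sum
    intro y _
    by_cases hy : y ∈ U
    · rw [hU y hy, sg_zero, mul_one]
    · have h1 := hnn y hy
      rcases zm (χ₂ y) with h2 | h2
      · rw [h2, sg_zero, mul_one]
      · rw [h2, sg_one]
        linarith
  rw [z2, z4] at z5
  have h3 := mul_pos (sum_cnt_pos h₁) (sum_cnt_pos h₂)
  linarith

/-- if a functional which vanishes on `U` vanishes on no member of the family, some point not in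
its kernel is, modulo `U`, in all members of the family -/
theorem exists_point_mod [Finite W] [Fintype ι] [Nonempty ι] (E : ι → Submodule (ZMod 2) W)
    (U : Submodule (ZMod 2) W)
    (h : ∀ w' : W, w' ∉ U → ∃ (κ : Type) (_ : Fintype κ) (E' : κ → Submodule (ZMod 2) W),
      ∀ w, cnt E w * cnt E (w + w') = cnt E' w) {χ : D W}
    (hχ : ∀ i, ∃ w ∈ E i, χ w = 1) : ∃ w, χ w = 1 ∧ ∀ i, w ∈ E i ⊔ U := by
  classical
  let P : Submodule (ZMod 2) (D W) :=
    { carrier := {ψ | (∃ i, ∀ w ∈ E i, ψ w = 0) ∧ ∀ u ∈ U, ψ u = 0}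
      add_mem' := fun {a b} ha hb => ⟨closure_mod E U h ha.1 hb.1 hb.2, fun u hu => by
        rw [LinearMap.add_apply, ha.2 u hu, hb.2 u hu, add_zero]⟩
      zero_mem' := by
        obtain ⟨i⟩ := (inferInstance : Nonempty ι)
        exact ⟨⟨i, fun w _ => rfl⟩, fun u _ => rfl⟩
      smul_mem' := by
        intro c ψ hψ
        rcases zm c with rfl | rfl
        · obtain ⟨i⟩ := (inferInstance : Nonempty ι)
          exact ⟨⟨i, fun w _ => by rw [zero_smul]; rfl⟩, fun u _ => by rw [zero_smul]; rfl⟩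
        · rw [one_smul]; exact hψ }
  have hχP : χ ∉ P := by
    rintro ⟨⟨i, hi⟩, -⟩
    obtain ⟨w, hw, hw1⟩ := hχ i
    rw [hi w hw] at hw1
    exact zero_ne_one hw1
  obtain ⟨f, hf1, hf0⟩ := exists_dual_sep hχP
  -- `f` is evaluation at a point
  obtain ⟨w, hw⟩ := (Module.evalEquiv (ZMod 2) W).surjective f
  have hfw : ∀ ψ : D W, f ψ = ψ w := by
    intro ψ
    rw [← hw]
    rfl
  refine ⟨w, by rw [← hfw, hf1], fun i => ?_⟩
  by_contra hwi
  obtain ⟨ψ, hψ1, hψ0⟩ := exists_dual_sep hwi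
  have := hf0 ψ ⟨⟨i, fun v hv => hψ0 v (Submodule.mem_sup_left hv)⟩,
    fun u hu => hψ0 u (Submodule.mem_sup_right hu)⟩
  rw [hfw, hψ1] at this
  exact one_ne_zero this

end Fam

variable {V Q : Type} [AddCommGroup V] [Module (ZMod 2) V] {S : QData V Q}

/-- **(T0G)**: `s`, `s'` stabilizers, `x` commutes with a slot of `c`, `w` differs from an
element commuting with `x` (resp. `x'`) by `s` (resp. `s'`): then `q (x + x', w) ≠ c`. -/
theorem t0g [Finite V] {c : Q} (hc0 : c ≠ S.z) {s s' x x' w g : V}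
    (hs : ∀ y, SlQ S c y → SlQ S c (y + s)) (hs' : ∀ y, SlQ S c y → SlQ S c (y + s'))
    (hg : SlQ S c g) (hgx : C S g x) (h1 : C S x (w + s)) (h2 : C S x' (w + s'))
    (h3 : S.q (x + x') w = c) : False := by
  -- `s'` is not a slot
  have hs0 : ¬ SlQ S c s' := by
    intro h
    have h4 := hs' _ h
    rw [ZModModule.add_self] at h4
    obtain ⟨t, ht⟩ := h4
    rw [ETC.q_zero_left] at ht
    exact hc0 ht.symm
  set y := g + s with hy'
  have hy : SlQ S c y := hs g hg
  -- `y + w` commutes with `x`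
  have h4 : C S (y + w) x := by
    have := (hgx.symm.add h1).symm
    exact this.of_eq (by rw [hy']; abel) rfl
  obtain ⟨b, hb⟩ := hy
  obtain ⟨v, h5, h6⟩ := S.link w (x + x') y b (by rw [S.symm, h3, hb])
  have h5' : S.q w v = c := by rw [← h5, S.symm, h3]
  have h6' : S.q y v = c := by rw [← h6, hb]
  have h7 : C S w (x + x' + v) := ETCP.q_eq_iff.1 h5
  have h8 : C S (y + w) v := (q_eq'_iff.1 (h6'.trans h5'.symm))
  -- the value `e'`
  have e1 : S.q x' s' = S.q y (x + v) := by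
    have k1 : S.q x' s' = S.q x' w := (q_eq h2).symm
    have k2 : S.q w x' = S.q w (x + v) := by
      apply q_eq
      exact h7.of_eq rfl (eo (by abel_nf; simp [ch2, ch3, ch4]))
    have k3 : S.q y (x + v) = S.q w (x + v) := q_eq' (h4.add h8)
    rw [k1, S.symm, k2, k3]
  set e' := S.q x' s' with he'
  -- the closed set
  let P : V → Prop := fun t => SlQ S c t ∧ ∀ p, S.q t p = e' → SlQ S c p
  have hPy : P y := by
    refine ⟨⟨b, hb⟩, fun p hp => ?_⟩
    have k1 : C S y (p + (x + v)) := ETCP.q_eq_iff.1 (hp.trans e1)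
    -- `p = (v + (p + x + v)) + x`
    have k2 : S.q y (v + (p + (x + v))) = c := by
      rw [← h6']
      apply q_eq
      exact k1.of_eq rfl (eo (by abel_nf; simp [ch2, ch3, ch4]))
    have k3 : C S (y + s) x := hgx.of_eq
      (by rw [hy', add_assoc, ZModModule.add_self, add_zero]) rfl
    have k4 := starF hs k2 k3
    have e : v + (p + (x + v)) + x = p := eo (by abel_nf; simp [ch2, ch3, ch4])
    rwa [e] at k4
  have hcl : ∀ t r, P t → S.q t r = e' → P r := by
    rintro t r ⟨ht, htp⟩ htr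
    have hr := htp r htr
    refine ⟨hr, fun p hp => ?_⟩
    have k1 : ∀ u, C S t u → SlQ S c (r + u) := by
      intro u hu
      apply htp
      rw [← htr]
      exact q_eq (hu.of_eq rfl (eo (by abel_nf; simp [ch2, ch3, ch4])))
    have k2 : C S r (t + p) := ETCP.q_eq_iff.1 (by rw [hp, S.symm, htr])
    have k3 := symF ht hr k1 k2
    have e : t + (t + p) = p := by rw [← add_assoc, ZModModule.add_self, zero_add]
    rwa [e] at k3
  obtain ⟨r, h9, h10⟩ := S.link y (x + v) s' x' (by rw [← e1, he', S.symm])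
  have h11 : P r := hcl y r hPy (by rw [← h9, ← e1])
  have h12 : P s' := hcl r s' h11 (by rw [S.symm, ← h10, S.symm])
  exact hs0 h12.1

/-- the product formula, version with at most one bad element -/
theorem prod_formula_stab [Fintype V] {c : Q}
    (G : Submodule (ZMod 2) V) [Fintype ↥G]
    (hG : ∀ w v, SlQ S c w → C S w v → v ∈ G)
    {w w' : V} (hsl : SlQ S c w') (hw : SlQ S c w ∨ SlQ S c (w + w')) :
    (∑ x : G, ind (w ∈ Dx S c x)) * (∑ x : G, ind (w + w' ∈ Dx S c x)) =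
      (∑ x : G, ind (w' ∈ Dx S c x ∧ w ∈ Dx S c x)) *
        (∑ x : G, ind (w ∈ S.ann x ⊔ S.ann (x + w'))) := by
  have sy : ∀ v x : V, v ∈ Dx S c x ↔ x ∈ Dx S c v := fun v x => ⟨Dx_symm, Dx_symm⟩
  have e1 : ∑ x : G, ind (w ∈ Dx S c x) = (Nat.card ↥(Dx S c w ⊓ G) : ℤ) := by
    rw [← sum_ind_mem]
    exact Finset.sum_congr rfl fun x _ => ind_congr (sy _ _)
  have e2 : ∑ x : G, ind (w + w' ∈ Dx S c x) = (Nat.card ↥(Dx S c (w + w') ⊓ G) : ℤ) := by
    rw [← sum_ind_mem]
    exact Finset.sum_congr rfl fun x _ => ind_congr (sy _ _)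
  have e3 : ∑ x : G, ind (w' ∈ Dx S c x ∧ w ∈ Dx S c x) =
      (Nat.card ↥((Dx S c w ⊓ G) ⊓ (Dx S c (w + w') ⊓ G)) : ℤ) := by
    have h0 : (Dx S c w ⊓ G) ⊓ (Dx S c (w + w') ⊓ G) = (Dx S c w ⊓ Dx S c (w + w')) ⊓ G := by
      rw [inf_inf_inf_comm, inf_idem]
    rw [h0, ← sum_ind_mem]
    apply Finset.sum_congr rfl
    intro x _
    apply ind_congr
    rw [Submodule.mem_inf, ← sy w, ← sy (w + w')]
    constructor
    · rintro ⟨h1, h2⟩
      exact ⟨h2, add_mem h2 h1⟩
    · rintro ⟨h1, h2⟩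
      refine ⟨?_, h1⟩
      have := add_mem h1 h2
      rwa [ETC.add_add_self] at this
  have e4 : ∑ x : G, ind (w ∈ S.ann x ⊔ S.ann (x + w')) =
      (Nat.card ↥((Dx S c w ⊓ G) ⊔ (Dx S c (w + w') ⊓ G)) : ℤ) := by
    have h0 : (Dx S c w ⊓ G) ⊔ (Dx S c (w + w') ⊓ G) =
        ((Dx S c w ⊓ G) ⊔ (Dx S c (w + w') ⊓ G)) ⊓ G :=
      (inf_eq_left.2 (sup_le inf_le_right inf_le_right)).symm
    rw [h0, ← sum_ind_mem]
    apply Finset.sum_congr rfl
    rintro ⟨x, hx⟩ _
    apply ind_congr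
    show w ∈ S.ann x ⊔ S.ann (x + w') ↔ x ∈ (Dx S c w ⊓ G) ⊔ (Dx S c (w + w') ⊓ G)
    constructor
    · intro h
      obtain ⟨t1, h1, t2, h2, h3⟩ := Submodule.mem_sup.1 h
      have h1' : C S x t1 := h1
      have h2' : C S (x + w') t2 := h2
      have f1 : S.q w x = S.q w' t2 := by
        have g1 : S.q x w = S.q x t2 := q_eq (h1'.of_eq rfl
          (by rw [← h3]; exact eo (by abel_nf; simp [ch2, ch3, ch4])))
        have g2 : S.q x t2 = S.q w' t2 := q_eq' h2'
        rw [S.symm, g1, g2]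
      obtain ⟨t, k1, k2, k3⟩ := link f1
      have m12 : x + t ∈ G ∧ t ∈ G := by
        rcases hw with hw | hw
        · have m1 : x + t ∈ G := hG w _ hw k1
          refine ⟨m1, ?_⟩
          have := add_mem hx m1
          rwa [ETC.add_add_self] at this
        · have m2 : t ∈ G := hG _ _ hw k3
          exact ⟨add_mem hx m2, m2⟩
      have e : x = (x + t) + t := by rw [add_assoc, ZModModule.add_self, add_zero]
      have m3 : (x + t) + t ∈ (Dx S c w ⊓ G) ⊔ (Dx S c (w + w') ⊓ G) :=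
        Submodule.add_mem_sup ⟨Or.inl k1, m12.1⟩ ⟨Or.inl k3, m12.2⟩
      rwa [← e] at m3
    · intro h
      obtain ⟨a, ⟨h1, h1'⟩, a', ⟨h2, h2'⟩, h3⟩ := Submodule.mem_sup.1 h
      obtain ⟨t, k1, k2⟩ := split_of hsl (Dx_symm h1) (Dx_symm h2) h3
      have e : w = (w + t) + t := by rw [add_assoc, ZModModule.add_self, add_zero]
      have m3 : (w + t) + t ∈ S.ann x ⊔ S.ann (x + w') := Submodule.add_mem_sup k1 k2
      rwa [← e] at m3
  rw [e1, e2, e3, e4]
  exact_mod_cast card_sup_inf _ _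

/-- **Note 2148.**  The non-slots in `D(c)` do not generate `D(c)`. -/
theorem span_ne_of_stab [Finite V] (he : S.e = 0) {c : Q} (hc0 : c ≠ S.z)
    (hc : ∃ x, SlQ S c x) {z : V} (hz : SlQ S c z)
    (hst : ∀ m, C S z m → ¬ SlQ S c m → ∀ y, SlQ S c y → SlQ S c (y + m)) :
    Submodule.span (ZMod 2) {v | v ∈ DcQ S c hc ∧ ¬ SlQ S c v} ≠ DcQ S c hc := by
  classical
  have := Fintype.ofFinite V
  have hzG : z ∈ DcQ S c hc := DcQ_sl he hz
  have hbG : ∀ x ∈ DcQ S c hc, SlQ S c x ∨ SlQ S c (x + z) := by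
    intro x hx
    by_cases h : SlQ S c x
    · exact Or.inl h
    · obtain ⟨y, hy, hyx⟩ := hx
      right
      rw [add_comm]
      exact nn_of_stab hz hst hy hyx h
  have hns : ∀ x y, SlQ S c x → (∀ t, SlQ S c t → SlQ S c (t + y)) → SlQ S c (x + y) :=
    fun x y h1 h2 => h2 x h1
  have h0S : ¬ SlQ S c (0 : V) := by
    rintro ⟨t, ht⟩
    rw [ETC.q_zero_left] at ht
    exact hc0 ht.symm
  -- a stabilizer is not a slot
  have hstS : ∀ y, (∀ t, SlQ S c t → SlQ S c (t + y)) → ¬ SlQ S c y := by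
    intro y h1 h2
    have := h1 y h2
    rw [ZModModule.add_self] at this
    exact h0S this
  generalize hGd : DcQ S c hc = G at *
  have hG : ∀ w v, SlQ S c w → C S w v → v ∈ G := by
    intro w v h1 h2
    rw [← hGd]
    exact DcQ_ann h1 h2
  have hGc : ∀ x ∈ G, ∃ y, SlQ S c y ∧ C S y x := by
    intro x hx
    rw [← hGd] at hx
    exact hx
  have := Fintype.ofFinite ↥G
  obtain ⟨w1, hw1⟩ := hz
  let W := Dx S c z
  have hw1W : w1 ∈ W := Or.inr hw1
  -- the subgroup `U`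
  let U : Submodule (ZMod 2) W :=
    { carrier := {u | C S z u ∧ ∀ y, SlQ S c y → SlQ S c (y + u)}
      add_mem' := by
        rintro a b ⟨h1, h2⟩ ⟨h3, h4⟩
        refine ⟨h1.add h3, fun y hy => ?_⟩
        have := h4 _ (h2 y hy)
        rwa [add_assoc] at this
      zero_mem' := ⟨C.zero z, fun y hy => by simpa using hy⟩
      smul_mem' := by
        intro a u hu
        rcases ETC.zm a with rfl | rfl
        · rw [zero_smul]
          exact ⟨C.zero z, fun y hy => by simpa using hy⟩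
        · rw [one_smul]; exact hu }
  have hUm : ∀ u : W, u ∈ U ↔ C S z u ∧ ∀ y, SlQ S c y → SlQ S c (y + u) := fun u => Iff.rfl
  have hUs : ∀ u : W, u ∉ U → SlQ S c (u : V) := by
    rintro ⟨u, hu⟩ h
    by_contra hcon
    rcases hu with hu | hu
    · exact h ⟨hu, hst u hu hcon⟩
    · exact hcon ⟨z, by rw [S.symm, hu]⟩
  -- the functional
  obtain ⟨χ, hχ1, hχ0⟩ : ∃ χ : D W, χ ⟨w1, hw1W⟩ = 1 ∧
      ∀ y ∈ (S.ann z).comap W.subtype, χ y = 0 := by
    apply exists_dual_sep
    intro h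
    have h' : C S z w1 := h
    exact hc0 (hw1.symm.trans h')
  have hχc : ∀ w : W, S.q z w = c → χ w = 1 := by
    intro w hw
    have h1 : χ (w + ⟨w1, hw1W⟩) = 0 := by
      apply hχ0
      exact ETCP.q_eq_iff.1 (hw.trans hw1.symm)
    rw [map_add, hχ1] at h1
    exact ETC.eq_of_add_eq_zero (V := ZMod 2) h1
  let E : G → Submodule (ZMod 2) W := fun x => (Dx S c (x : V)).comap W.subtype
  have hne : Nonempty G := ⟨0⟩
  obtain ⟨w, hw, hw'⟩ := exists_point_mod (χ := χ) E U (by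
    intro w' hw'U
    have hsl := hUs w' hw'U
    refine ⟨{x : G // (w' : V) ∈ Dx S c (x : V)} × G, inferInstance,
      fun a => E a.1 ⊓ ((S.ann (a.2 : V) ⊔ S.ann ((a.2 : V) + w')).comap W.subtype),
      fun w => ?_⟩
    rw [← cnt_mul (fun a : {x : G // (w' : V) ∈ Dx S c (x : V)} => E a)
      (fun a : G => (S.ann (a : V) ⊔ S.ann ((a : V) + w')).comap W.subtype)]
    have hor : SlQ S c (w : V) ∨ SlQ S c ((w : V) + w') := by
      by_cases h1 : w ∈ U
      · right
        apply hUs (w + w')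
        intro h2
        apply hw'U
        have := U.add_mem h1 h2
        rwa [← add_assoc, ZModModule.add_self, zero_add] at this
      · exact Or.inl (hUs w h1)
    have key := prod_formula_stab (S := S) (c := c) G hG (w := (w : V)) (w' := w') hsl hor
    have k1 : cnt (fun a : {x : G // (w' : V) ∈ Dx S c (x : V)} => E a) w =
        ∑ x : G, ind ((w' : V) ∈ Dx S c (x : V) ∧ (w : V) ∈ Dx S c (x : V)) :=
      sum_subtype_ind (fun x : G => (w' : V) ∈ Dx S c (x : V))
        (fun x : G => (w : V) ∈ Dx S c (x : V))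
    rw [k1]
    exact key) (by
    rintro ⟨x, hx⟩
    have hzt : ∃ t, S.q z t = c ∧ (C S x t ∨ S.q x t = c) := by
      rcases hbG x hx with ⟨y, hy⟩ | ⟨y, hy⟩
      · obtain ⟨t, h1, h2⟩ := S.link z w1 x y (hw1.trans hy.symm)
        exact ⟨t, by rw [← h1, hw1], Or.inr (by rw [← h2, hy])⟩
      · obtain ⟨t, h1, h2⟩ := S.link z w1 (x + z) y (hw1.trans hy.symm)
        refine ⟨t, by rw [← h1, hw1], Or.inl ?_⟩
        have h3 : S.q (x + z) t = S.q z t := by rw [← h2, hy, ← h1, hw1]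
        exact (q_eq'_iff.1 h3).of_eq (by rw [add_assoc, ZModModule.add_self, add_zero]) rfl
    obtain ⟨t, ht, ht'⟩ := hzt
    exact ⟨⟨t, Or.inr ht⟩, ht', hχc _ ht⟩)
  have hzw : S.q z w = c := by
    rcases w.2 with h | h
    · exfalso
      have := hχ0 w h
      rw [hw] at this
      exact one_ne_zero this
    · exact h
  have hzwu : ∀ u ∈ U, S.q z ((w : V) + (u : V)) = c := by
    intro u hu
    rw [← hzw]
    exact q_eq (hu.1.of_eq rfl (eo (by abel_nf; simp [ch2, ch3, ch4])))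
  -- for every `x` in `G` some `w + u` is in `D_c(x)`
  have hx1 : ∀ x ∈ G, ∃ u ∈ U, C S x ((w : V) + (u : V)) ∨ S.q x ((w : V) + (u : V)) = c := by
    intro x hx
    obtain ⟨e, he1, u, hu, heu⟩ := Submodule.mem_sup.1 (hw' ⟨x, hx⟩)
    refine ⟨u, hu, ?_⟩
    have e1 : (w : V) + (u : V) = (e : V) := by
      have := congrArg (Subtype.val) heu
      rw [← this]
      show (e : V) + (u : V) + (u : V) = (e : V)
      rw [add_assoc, ZModModule.add_self, add_zero]
    rw [e1]
    exact he1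
  -- the subgroup of index two
  let G' : Submodule (ZMod 2) V :=
    { carrier := {x | x ∈ G ∧ ∃ u ∈ U, C S x ((w : V) + (u : V))}
      add_mem' := by
        rintro x x' ⟨hx, u, hu, hux⟩ ⟨hx', u', hu', hux'⟩
        refine ⟨add_mem hx hx', ?_⟩
        obtain ⟨u'', hu'', h1 | h1⟩ := hx1 _ (add_mem hx hx')
        · exact ⟨u'', hu'', h1⟩
        · exfalso
          obtain ⟨g, hg, hgx⟩ := hGc x hx
          refine t0g (w := (w : V) + (u'' : V)) (s := (u'' : V) + u) (s' := (u'' : V) + u') hc0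
            ?_ ?_ hg hgx ?_ ?_ h1
          · exact (U.add_mem hu'' hu).2
          · exact (U.add_mem hu'' hu').2
          · exact hux.of_eq rfl (eo (by abel_nf; simp [ch2, ch3, ch4]))
          · exact hux'.of_eq rfl (eo (by abel_nf; simp [ch2, ch3, ch4]))
      zero_mem' := ⟨G.zero_mem, 0, U.zero_mem, (C.zero _).symm⟩
      smul_mem' := by
        intro a x hx
        rcases ETC.zm a with rfl | rfl
        · rw [zero_smul]
          exact ⟨G.zero_mem, 0, U.zero_mem, (C.zero _).symm⟩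
        · rw [one_smul]; exact hx }
  have hNG' : Submodule.span (ZMod 2) {v | v ∈ G ∧ ¬ SlQ S c v} ≤ G' := by
    rw [Submodule.span_le]
    rintro v ⟨hv, hvs⟩
    refine ⟨hv, ?_⟩
    obtain ⟨u, hu, h1 | h1⟩ := hx1 v hv
    · exact ⟨u, hu, h1⟩
    · exact absurd ⟨_, h1⟩ hvs
  intro hcon
  have hzG' : z ∈ G' := by
    apply hNG'
    rw [hcon]
    exact hzG
  obtain ⟨-, u, hu, h1⟩ := hzG'
  have h2 := hzwu u hu
  exact hc0 (h2.symm.trans h1)

end Pool.Agent.RDC
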