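import Pool.Agent.RDC.Stab

/-!
The stabilizer door for quaternionic structures (note 2148).
-/

set_option autoImplicit false
set_option linter.unusedSectionVars false

namespace Pool.Agent.RDC

open QS Pool.Agent.RFT Pool.Agent.ETG Pool.Agent.RFN Pool.Agent.AST Pool.Agent.LSS
open Pool.Agent.Helper58.PLine (QData)

/-- some quaternion `q (a, b) ≠ 0` has a slot `z` such that all non-slots commuting with `z` are
stabilizers of the set of slots -/
def HasStab (S : QStruct) : Prop :=
  ∃ a b, S.q a b ≠ S.zero ∧ ∃ z ∈ Slots S a b, ∀ m, S.q z m = S.zero → m ∉ Slots S a b →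
      ∀ y ∈ Slots S a b, y * m ∈ Slots S a b

/-- such a structure passes the slot test -/
theorem hasSpan_of_stab (S : QStruct) [Finite S.G] (hneg : S.neg = 1) (h : HasStab S) :
    HasSpan S := by
  obtain ⟨a, b, hab, z, hz, h1⟩ := h
  right
  refine ⟨a, b, hab, ?_⟩
  set D := toD S hneg with hD'
  have he : D.e = 0 := rfl
  have hc0 : S.q a b ≠ D.z := hab
  have hSl : ∀ x : Additive S.G, SlQ D (S.q a b) x ↔ Additive.toMul x ∈ Slots S a b := by
    intro x
    constructor
    · rintro ⟨y, hy⟩
      exact ⟨Additive.toMul y, hy⟩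
    · rintro ⟨y, hy⟩
      exact ⟨Additive.ofMul y, hy⟩
  have hcs : ∃ x, SlQ D (S.q a b) x := ⟨Additive.ofMul a, Additive.ofMul b, rfl⟩
  have hD : ∀ x : Additive S.G, x ∈ DcQ D (S.q a b) hcs ↔
      Additive.toMul x ∈ Subgroup.closure (Slots S a b) := by
    intro x
    rw [DcQ_eq_span he, ← span_closure]
    have : {x | SlQ D (S.q a b) x} = {x : Additive S.G | Additive.toMul x ∈ Slots S a b} :=
      Set.ext fun x => hSl x
    rw [this]
  have hN : ∀ x : Additive S.G,
      x ∈ Submodule.span (ZMod 2) {v | v ∈ DcQ D (S.q a b) hcs ∧ ¬ SlQ D (S.q a b) v} ↔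
      Additive.toMul x ∈ Subgroup.closure (NonSlots S a b) := by
    intro x
    rw [← span_closure]
    have : {v | v ∈ DcQ D (S.q a b) hcs ∧ ¬ SlQ D (S.q a b) v} =
        {x : Additive S.G | Additive.toMul x ∈ NonSlots S a b} := by
      ext x
      exact and_congr (hD x) (not_congr (hSl x))
    rw [this]
  have hs' : Submodule.span (ZMod 2) {v | v ∈ DcQ D (S.q a b) hcs ∧ ¬ SlQ D (S.q a b) v} ≠
      DcQ D (S.q a b) hcs := by
    apply span_ne_of_stab he hc0 hcs (z := Additive.ofMul z) ((hSl _).2 hz)
    intro m hm hm' y hy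
    exact (hSl (y + m)).2 (h1 (Additive.toMul m) hm (fun h => hm' ((hSl m).2 h))
      (Additive.toMul y) ((hSl y).1 hy))
  intro h0
  apply hs'
  ext x
  rw [hN x, hD x, h0]

/-- a structure with `-1 = 1` all of whose smaller structures are of elementary type and which
has such a slot is of elementary type -/
theorem top_of_stab (S : QStruct) [Finite S.G] (hneg : S.neg = 1)
    (hT : ∀ T : QStruct, Finite T.G → T.neg = 1 → Nat.card T.G < Nat.card S.G → ElemType T)
    (h : HasStab S) : ElemType S :=
  top_span S hneg hT (hasSpan_of_stab S hneg h)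

/-- **The stabilizer door.** -/
theorem all_of_stab
    (h : ∀ S : QStruct, Finite S.G → S.neg = 1 →
      (∀ T : QStruct, Finite T.G → T.neg = 1 → Nat.card T.G < Nat.card S.G → ElemType T) →
      ¬ ElemType S → HasStab S) :
    ∀ S : QStruct, Finite S.G → S.neg = 1 → ElemType S := by
  intro S hf hneg
  induction hn : Nat.card S.G using Nat.strong_induction_on generalizing S with
  | _ n ih =>
    subst hn
    have hT : ∀ T : QStruct, Finite T.G → T.neg = 1 → Nat.card T.G < Nat.card S.G →
        ElemType T := fun T hf' hn' hc => ih (Nat.card T.G) hc T hf' hn' rfl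
    by_contra hS
    exact hS (top_of_stab S hneg hT (h S hf hneg hT hS))

end Pool.Agent.RDC
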