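import Pool.Agent.RDC.Pair

/-!
The universal version (notes 1981, 2119, 2129).  `c ≠ 0` a symbol with `D(c) = V`, `z` a slot of
`c` such that every non-slot commuting with `z` is a stabilizer of the set of slots.  Then there
is an element of rank one.

* `symF`: the symmetry lemma (helper32, helper53);
* `starF`: the key fact of Theorem T0 (helper96);
* `split_stab`: a plane through a stabilizer is linked modulo `c`.
-/

set_option autoImplicit false
set_option linter.unusedSectionVars false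
set_option linter.unusedSimpArgs false

namespace Pool.Agent.RDC

open Finset ETC Pool.Agent.ETCP Pool.Agent.LSS
open Pool.Agent.Helper58.PLine (QData)

variable {V Q : Type} [AddCommGroup V] [Module (ZMod 2) V] {S : QData V Q}

/-- number of elements commuting with both -/
noncomputable def Mc [Fintype V] (S : QData V Q) (x y : V) : ℤ := ∑ w, ind (C S x w ∧ C S y w)

theorem Mc_symm [Fintype V] (x y : V) : Mc S x y = Mc S y x :=
  Finset.sum_congr rfl fun _ _ => ind_congr and_comm

theorem Mc_pos [Fintype V] (x y : V) : 0 < Mc S x y := by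
  unfold Mc
  apply Finset.sum_pos' (fun w _ => ind_nonneg' _)
  exact ⟨0, Finset.mem_univ _, by rw [ind_true' ⟨C.zero _, C.zero _⟩]; norm_num⟩

/-- **Symmetry lemma** -/
theorem symF [Finite V] {c : Q} {y z : V} (hy : SlQ S c y) (hz : SlQ S c z)
    (h : ∀ u, C S y u → SlQ S c (z + u)) {u : V} (hu : C S z u) : SlQ S c (y + u) := by
  classical
  have := Fintype.ofFinite V
  -- the two counts
  let L : V → V → ℤ := fun z y => ∑ u, ind (C S y u) * ∑ w, ind (S.q z w = c ∧ C S u w)
  let X : V → V → ℤ := fun z y => ∑ u, ind (C S y u ∧ ¬ SlQ S c (z + u)) * Mc S z u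
  let R : V → V → ℤ := fun z y => ∑ u, ind (C S y u) * Mc S z u
  have hLXR : ∀ z y, SlQ S c z → L z y + X z y = R z y := by
    intro z y hz
    simp only [L, X, R]
    rw [← Finset.sum_add_distrib]
    apply Finset.sum_congr rfl
    intro u _
    by_cases h1 : SlQ S c (z + u)
    · have e1 : ind (C S y u ∧ ¬ SlQ S c (z + u)) = 0 := ind_false fun h => h.2 h1
      rw [e1, zero_mul, add_zero, sum_ta hz h1]
      rfl
    · have e1 : ∑ w, ind (S.q z w = c ∧ C S u w) = 0 :=
        Finset.sum_eq_zero fun w _ => ind_false fun h' => h1 (not_ta h'.1 h'.2)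
      have e2 : ind (C S y u ∧ ¬ SlQ S c (z + u)) = ind (C S y u) :=
        ind_congr ⟨fun h => h.1, fun h => ⟨h, h1⟩⟩
      rw [e1, e2, mul_zero, zero_add]
  have hR : ∀ z y, R z y = R y z := by
    intro z y
    simp only [R, Mc, Finset.mul_sum, ind_mul]
    rw [Finset.sum_comm]
    apply Finset.sum_congr rfl
    intro u _
    apply Finset.sum_congr rfl
    intro w _
    exact ind_congr ⟨fun ⟨a, b, c⟩ => ⟨b, a, c.symm⟩, fun ⟨a, b, c⟩ => ⟨b, a, c.symm⟩⟩
  have hL1 : ∀ z y, SlQ S c y → L z y =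
      ∑ w, ∑ u, ind (S.q z w = c ∧ S.q y u = c ∧ S.q w u = c) := by
    intro z y hy
    simp only [L, Finset.mul_sum, ind_mul]
    rw [Finset.sum_comm]
    apply Finset.sum_congr rfl
    intro w _
    by_cases hw : S.q z w = c
    · have hws : SlQ S c w := ⟨z, by rw [S.symm, hw]⟩
      have e := sum_tt hy hws
      have e1 : ∑ u, ind (C S y u ∧ S.q z w = c ∧ C S u w) = ∑ u, ind (C S y u ∧ C S w u) :=
        Finset.sum_congr rfl fun u _ => ind_congr
          ⟨fun h => ⟨h.1, h.2.2.symm⟩, fun h => ⟨h.1, hw, h.2.symm⟩⟩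
      have e2 : ∑ u, ind (S.q z w = c ∧ S.q y u = c ∧ S.q w u = c) =
          ∑ u, ind (S.q y u = c ∧ S.q w u = c) :=
        Finset.sum_congr rfl fun u _ => ind_congr ⟨fun h => h.2, fun h => ⟨hw, h⟩⟩
      rw [e1, e2, e]
    · rw [Finset.sum_eq_zero fun u _ => ind_false fun h => hw h.2.1,
        Finset.sum_eq_zero fun u _ => ind_false fun h => hw h.1]
  have hL : L z y = L y z := by
    rw [hL1 z y hy, hL1 y z hz, Finset.sum_comm]
    apply Finset.sum_congr rfl
    intro u _
    apply Finset.sum_congr rfl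
    intro w _
    exact ind_congr ⟨fun ⟨a, b, c⟩ => ⟨b, a, by rw [S.symm, c]⟩,
      fun ⟨a, b, c⟩ => ⟨b, a, by rw [S.symm, c]⟩⟩
  have hX : X z y = X y z := by
    have h1 := hLXR z y hz
    have h2 := hLXR y z hy
    rw [hL, hR z y] at h1
    linarith
  have hX0 : X z y = 0 := by
    apply Finset.sum_eq_zero
    intro u _
    rw [ind_false fun h' => h'.2 (h u h'.1), zero_mul]
  by_contra hcon
  rw [hX] at hX0
  have h3 := (Finset.sum_eq_zero_iff_of_nonneg (fun u _ =>
    mul_nonneg (ind_nonneg' _) (Mc_pos y u).le)).1 hX0 u (Finset.mem_univ u)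
  rw [ind_true' ⟨hu, hcon⟩, one_mul] at h3
  exact (Mc_pos y u).ne' h3

/-- a partner plus a commuting element is a partner -/
theorem slot_add {c : Q} {y a t : V} (ha : S.q y a = c) (ht : C S y t) : SlQ S c (a + t) := by
  refine ⟨y, ?_⟩
  rw [S.symm, ← ha]
  exact q_eq (ht.of_eq rfl (eo (by abel_nf; simp [ch2, ch3, ch4])))

/-- **the key fact**: `u` a stabilizer, `a` a `c`-partner of `y`, `t` commuting with `y + u` -/
theorem starF [Finite V] {c : Q} {y u a t : V} (hst : ∀ y, SlQ S c y → SlQ S c (y + u))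
    (ha : S.q y a = c) (ht : C S (y + u) t) : SlQ S c (a + t) := by
  have hy : SlQ S c y := ⟨a, ha⟩
  have has : SlQ S c a := ⟨y, by rw [S.symm, ha]⟩
  have h1 : ∀ v, C S a v → SlQ S c (y + v) := fun v hv =>
    symF hy has (fun v hv => slot_add ha hv) hv
  have h2 : ∀ v, C S a v → SlQ S c ((y + u) + v) := by
    intro v hv
    have := hst _ (h1 v hv)
    have e : y + u + v = y + v + u := by abel
    rwa [e]
  exact symF has (hst y hy) h2 ht

/-- a plane through a stabilizer is linked modulo `c` -/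
theorem split_stab [Finite V] (he : S.e = 0) {c : Q} {u w x : V}
    (hst : ∀ y, SlQ S c y → SlQ S c (y + u)) (h : x ∈ Dx S c w ⊔ Dx S c (w + u)) :
    w ∈ Dx S c x ⊔ Dx S c (x + u) := by
  -- `u` is in the sum
  have hu : u ∈ Dx S c x ⊔ Dx S c (x + u) := by
    have e : u = x + (x + u) := by rw [← add_assoc, ZModModule.add_self, zero_add]
    have m := Submodule.add_mem_sup (S := Dx S c x) (T := Dx S c (x + u))
      (show x ∈ Dx S c x from Or.inl (C.self he x))
      (show x + u ∈ Dx S c (x + u) from Or.inl (C.self he _))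
    rwa [← e] at m
  -- commuting case
  have basic : ∀ w a a', a + a' = x → C S w a → C S (w + u) a' →
      w ∈ Dx S c x ⊔ Dx S c (x + u) := by
    intro w a a' hx h1 h2
    have e1 : S.q x w = S.q a' w := by
      apply q_eq'
      exact h1.symm.of_eq (by rw [← hx]; exact eo (by abel_nf; simp [ch2, ch3, ch4])) rfl
    have e2 : S.q a' w = S.q a' u := q_eq h2.symm
    have e3 : S.q x w = S.q u a' := by rw [e1, e2, S.symm]
    obtain ⟨t, h3, h4, h5⟩ := link e3
    have e : w = (w + t) + t := by rw [add_assoc, ZModModule.add_self, add_zero]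
    have m := Submodule.add_mem_sup (S := Dx S c x) (T := Dx S c (x + u))
      (show w + t ∈ Dx S c x from Or.inl h3) (show t ∈ Dx S c (x + u) from Or.inl h5)
    rwa [← e] at m
  -- mixed case
  have mixed : ∀ w a a', a + a' = x → S.q w a = c → C S (w + u) a' →
      w ∈ Dx S c x ⊔ Dx S c (x + u) := by
    intro w a a' hx h1 h2
    have hxs : SlQ S c x := by rw [← hx]; exact starF hst h1 h2
    obtain ⟨b, hb⟩ := hxs
    obtain ⟨v, h3, h4⟩ := S.link x b w a (hb.trans h1.symm)
    rw [hb] at h3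
    rw [h1] at h4
    have k1 : C S (x + w) v := q_eq'_iff.1 (h3.symm.trans h4)
    have k2 : C S (x + w) (x + (w + v)) :=
      ((C.self he (x + w)).add k1).of_eq rfl (by abel)
    have k3 : S.q x (w + v) = S.q w (x + v) := by
      have e1 : S.q x (w + v) = S.q x (x + (w + v)) := by
        apply q_eq
        exact (C.self he x).of_eq rfl (eo (by abel_nf; simp [ch2, ch3, ch4]))
      have e2 : S.q x (x + (w + v)) = S.q w (x + (w + v)) := q_eq' k2
      have e3 : S.q w (x + (w + v)) = S.q w (x + v) := by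
        apply q_eq
        exact (C.self he w).of_eq rfl (eo (by abel_nf; simp [ch2, ch3, ch4]))
      rw [e1, e2, e3]
    have k4 : C S w (a + v) := ETCP.q_eq_iff.1 (h1.trans h4)
    have k5 : S.q w (x + v) = S.q w a' := by
      apply q_eq
      exact k4.of_eq rfl (by rw [← hx]; exact eo (by abel_nf; simp [ch2, ch3, ch4]))
    have k6 : S.q w a' = S.q u a' := q_eq' h2
    obtain ⟨t, g1, g2, g3⟩ := link (k3.trans (k5.trans k6))
    have e : w = (w + t) + t := by rw [add_assoc, ZModModule.add_self, add_zero]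
    have m := Submodule.add_mem_sup (S := Dx S c x) (T := Dx S c (x + u))
      (show w + t ∈ Dx S c x from Or.inr (by
        rw [h3]
        apply q_eq
        exact g1.of_eq rfl (by abel)))
      (show t ∈ Dx S c (x + u) from Or.inl g3)
    rwa [← e] at m
  obtain ⟨a, ha, a', ha', hx⟩ := Submodule.mem_sup.1 h
  rcases ha with ha | ha
  · rcases ha' with ha' | ha'
    · exact basic w a a' hx ha ha'
    · have m := mixed (w + u) a' a (by rw [add_comm, hx]) ha'
        (ha.of_eq (eo (by abel_nf; simp [ch2, ch3, ch4])) rfl)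
      have := add_mem m hu
      rwa [add_assoc, ZModModule.add_self, add_zero] at this
  · rcases ha' with ha' | ha'
    · exact mixed w a a' hx ha ha'
    · obtain ⟨y, h1, h2, h3⟩ := link (show S.q w a = S.q (w + u) a' by rw [ha, ha'])
      exact basic w (a + y) (a' + y)
        (by rw [← hx]; exact eo (by abel_nf; simp [ch2, ch3, ch4])) h1 h2

theorem symD {c : Q} (v x : V) : v ∈ Dx S c x ↔ x ∈ Dx S c v := ⟨Dx_symm, Dx_symm⟩

/-- cardinalities -/
theorem prod_univ [Fintype V] {c : Q} {w w' : V} (P : V → Prop)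
    (hP : ∀ x, P x ↔ x ∈ Dx S c w ⊔ Dx S c (w + w')) :
    (∑ x : V, ind (w ∈ Dx S c x)) * (∑ x : V, ind (w + w' ∈ Dx S c x)) =
      (∑ x : V, ind (w' ∈ Dx S c x ∧ w ∈ Dx S c x)) * (∑ x : V, ind (P x)) := by
  classical
  have hs : ∀ A : Submodule (ZMod 2) V, ∑ x : V, ind (x ∈ A) = (Nat.card ↥A : ℤ) := by
    intro A
    have h1 : ∑ x : V, ind (x ∈ A) = ((Finset.univ.filter fun x : V => x ∈ A).card : ℤ) := by
      rw [Finset.card_filter]
      push_cast
      apply Finset.sum_congr rfl
      intro x _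
      unfold ind
      split_ifs <;> rfl
    rw [h1, ← Fintype.card_subtype, ← Nat.card_eq_fintype_card]
  have e1 : ∑ x : V, ind (w ∈ Dx S c x) = (Nat.card ↥(Dx S c w) : ℤ) := by
    rw [← hs]
    exact Finset.sum_congr rfl fun x _ => ind_congr (symD _ _)
  have e2 : ∑ x : V, ind (w + w' ∈ Dx S c x) = (Nat.card ↥(Dx S c (w + w')) : ℤ) := by
    rw [← hs]
    exact Finset.sum_congr rfl fun x _ => ind_congr (symD _ _)
  have e3 : ∑ x : V, ind (w' ∈ Dx S c x ∧ w ∈ Dx S c x) =
      (Nat.card ↥(Dx S c w ⊓ Dx S c (w + w')) : ℤ) := by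
    rw [← hs]
    apply Finset.sum_congr rfl
    intro x _
    apply ind_congr
    rw [Submodule.mem_inf, ← symD w, ← symD (w + w')]
    constructor
    · rintro ⟨h1, h2⟩
      exact ⟨h2, add_mem h2 h1⟩
    · rintro ⟨h1, h2⟩
      refine ⟨?_, h1⟩
      have := add_mem h1 h2
      rwa [ETC.add_add_self] at this
  have e4 : ∑ x : V, ind (P x) = (Nat.card ↥(Dx S c w ⊔ Dx S c (w + w')) : ℤ) := by
    rw [← hs]
    exact Finset.sum_congr rfl fun x _ => ind_congr (hP x)
  rw [e1, e2, e3, e4]
  exact_mod_cast card_sup_inf _ _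

/-- a universal symbol `c` and a slot `z` such that all non-slots commuting with `z` are
stabilizers: some slot `w` of `c` has `V = V_w ∪ {x : q (w, x) = c}` -/
theorem exists_slot_univ [Finite V] (he : S.e = 0) {c : Q} (hc0 : c ≠ S.z)
    (hu : ∀ v, ∃ y, SlQ S c y ∧ C S y v) {z : V} (hz : SlQ S c z)
    (hst : ∀ m, C S z m → ¬ SlQ S c m → ∀ y, SlQ S c y → SlQ S c (y + m)) :
    ∃ w, S.q z w = c ∧ ∀ x, C S w x ∨ S.q w x = c := by
  classical
  have := Fintype.ofFinite V
  have hb : ∀ x, SlQ S c x ∨ SlQ S c (x + z) := by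
    intro x
    by_cases h : SlQ S c x
    · exact Or.inl h
    · obtain ⟨y, hy, hyx⟩ := hu x
      right
      rw [add_comm]
      exact nn_of_stab hz hst hy hyx h
  obtain ⟨w1, hw1⟩ := hz
  let W := Dx S c z
  have hw1W : w1 ∈ W := Or.inr hw1
  -- the functional
  obtain ⟨χ, hχ1, hχ0⟩ : ∃ χ : D W, χ ⟨w1, hw1W⟩ = 1 ∧
      ∀ y ∈ (S.ann z).comap W.subtype, χ y = 0 := by
    apply exists_dual_sep
    intro h
    have h' : C S z w1 := h
    exact hc0 (hw1.symm.trans h')
  have hχc : ∀ w : W, S.q z w = c → χ w = 1 := by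
    intro w hw
    have h1 : χ (w + ⟨w1, hw1W⟩) = 0 := by
      apply hχ0
      exact ETCP.q_eq_iff.1 (hw.trans hw1.symm)
    rw [map_add, hχ1] at h1
    exact ETC.eq_of_add_eq_zero (V := ZMod 2) h1
  let E : V → Submodule (ZMod 2) W := fun x => (Dx S c (x : V)).comap W.subtype
  obtain ⟨w, hw, hw'⟩ := exists_point (χ := χ) E (by
    intro w'
    have k1 : ∀ w : W, cnt (fun a : {x : V // (w' : V) ∈ Dx S c (x : V)} => E a) w =
          ∑ x : V, ind ((w' : V) ∈ Dx S c (x : V) ∧ (w : V) ∈ Dx S c (x : V)) := fun w =>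
        sum_subtype_ind (fun x : V => (w' : V) ∈ Dx S c (x : V))
          (fun x : V => (w : V) ∈ Dx S c (x : V))
    by_cases h1 : SlQ S c (w' : V)
    · refine ⟨{x : V // (w' : V) ∈ Dx S c (x : V)} × V, inferInstance,
        fun a => E a.1 ⊓ ((S.ann (a.2 : V) ⊔ S.ann ((a.2 : V) + w')).comap W.subtype),
        fun w => ?_⟩
      rw [← cnt_mul (fun a : {x : V // (w' : V) ∈ Dx S c (x : V)} => E a)
        (fun a : V => (S.ann (a : V) ⊔ S.ann ((a : V) + w')).comap W.subtype), k1 w]
      refine prod_univ (S := S) (c := c) (w := w) (w' := w')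
        (fun x => (w : V) ∈ S.ann x ⊔ S.ann (x + w')) fun x => ?_
      constructor
      · intro h
        obtain ⟨t1, h1, t2, h2, h3⟩ := Submodule.mem_sup.1 h
        have h1' : C S x t1 := h1
        have h2' : C S (x + w') t2 := h2
        have f1 : S.q w x = S.q w' t2 := by
          have g1 : S.q x w = S.q x t2 := q_eq (h1'.of_eq rfl
            (by rw [← h3]; exact eo (by abel_nf; simp [ch2, ch3, ch4])))
          have g2 : S.q x t2 = S.q w' t2 := q_eq' h2'
          rw [S.symm, g1, g2]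
        obtain ⟨t, k1, k2, k3⟩ := link f1
        have e : x = (x + t) + t := by rw [add_assoc, ZModModule.add_self, add_zero]
        have m3 := Submodule.add_mem_sup (S := Dx S c (w : V)) (T := Dx S c ((w : V) + w'))
          (show x + t ∈ Dx S c (w : V) from Or.inl k1)
          (show t ∈ Dx S c ((w : V) + w') from Or.inl k3)
        rwa [← e] at m3
      · intro h
        obtain ⟨a, h2, a', h3, h4⟩ := Submodule.mem_sup.1 h
        obtain ⟨t, k1, k2⟩ := split_of h1 (Dx_symm h2) (Dx_symm h3) h4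
        have e : (w : V) = (w + t) + t := by rw [add_assoc, ZModModule.add_self, add_zero]
        have m3 := Submodule.add_mem_sup (S := S.ann x) (T := S.ann (x + (w' : V)))
          (show (w : V) + t ∈ S.ann x from k1) (show t ∈ S.ann (x + (w' : V)) from k2)
        rwa [← e] at m3
    · have hs' : ∀ y, SlQ S c y → SlQ S c (y + w') := by
        rcases w'.2 with h2 | h2
        · exact hst _ h2 h1
        · exact absurd ⟨z, by rw [S.symm, h2]⟩ h1
      refine ⟨{x : V // (w' : V) ∈ Dx S c (x : V)} × V, inferInstance,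
        fun a => E a.1 ⊓ ((Dx S c (a.2 : V) ⊔ Dx S c ((a.2 : V) + w')).comap W.subtype),
        fun w => ?_⟩
      rw [← cnt_mul (fun a : {x : V // (w' : V) ∈ Dx S c (x : V)} => E a)
        (fun a : V => (Dx S c (a : V) ⊔ Dx S c ((a : V) + w')).comap W.subtype), k1 w]
      exact prod_univ (S := S) (c := c) (w := w) (w' := w')
        (fun x => (w : V) ∈ Dx S c x ⊔ Dx S c (x + w')) fun x =>
          ⟨fun h => split_stab he hs' h, fun h => split_stab he hs' h⟩) (by
    intro x
    have hzt : ∃ t, S.q z t = c ∧ (C S x t ∨ S.q x t = c) := by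
      rcases hb x with ⟨y, hy⟩ | ⟨y, hy⟩
      · obtain ⟨t, h1, h2⟩ := S.link z w1 x y (hw1.trans hy.symm)
        exact ⟨t, by rw [← h1, hw1], Or.inr (by rw [← h2, hy])⟩
      · obtain ⟨t, h1, h2⟩ := S.link z w1 (x + z) y (hw1.trans hy.symm)
        refine ⟨t, by rw [← h1, hw1], Or.inl ?_⟩
        have h3 : S.q (x + z) t = S.q z t := by rw [← h2, hy, ← h1, hw1]
        exact (q_eq'_iff.1 h3).of_eq (by rw [add_assoc, ZModModule.add_self, add_zero]) rfl
    obtain ⟨t, ht, ht'⟩ := hzt
    exact ⟨⟨t, Or.inr ht⟩, ht', hχc _ ht⟩)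
  refine ⟨w, ?_, fun x => ?_⟩
  · rcases w.2 with h | h
    · exfalso
      have := hχ0 w h
      rw [hw] at this
      exact one_ne_zero this
    · exact h
  · exact Dx_symm (hw' x)

/-- conclusion: an element of rank one or a prime functional -/
theorem prime_univ [Finite V] (he : S.e = 0) {c : Q} (hc0 : c ≠ S.z)
    (hu : ∀ v, ∃ y, SlQ S c y ∧ C S y v) {z : V} (hz : SlQ S c z)
    (hst : ∀ m, C S z m → ¬ SlQ S c m → ∀ y, SlQ S c y → SlQ S c (y + m)) :
    (∃ x, x ≠ 0 ∧ ∀ v w, C S x v ∨ C S x w ∨ C S x (v + w)) ∨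
    ∃ φ : V →ₗ[ZMod 2] ZMod 2, φ ≠ 0 ∧
      ∀ p p', (∃ v, C S p v ∧ φ v = 1) → (∃ v, C S p' v ∧ φ v = 1) →
        (∃ v, C S (p + p') v ∧ φ v = 1) → ∃ v, C S p v ∧ C S p' v ∧ φ v = 1 := by
  obtain ⟨w, hw, hw'⟩ := exists_slot_univ he hc0 hu hz hst
  obtain ⟨y, hy, -⟩ := hu 0
  exact prime_of_slot he hc0 ⟨y, hy⟩ (x := w) (v1 := z) (by rw [S.symm, hw]) fun v _ => hw' v

end Pool.Agent.RDC
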