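import Pool.Agent.RDC.Univ

/-!
The universal door for quaternionic structures, and the union of the doors of this directory.
-/

set_option autoImplicit false
set_option linter.unusedSectionVars false

namespace Pool.Agent.RDC

open QS Pool.Agent.RFT Pool.Agent.ETG Pool.Agent.RFN Pool.Agent.AST Pool.Agent.LSS
open Pool.Agent.Helper58.PLine (QData)

/-- some quaternion `q (a, b) ≠ 0` such that every element commutes with one of its slots has a
slot `z` such that all non-slots commuting with `z` are stabilizers of the set of slots -/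
def HasUniv (S : QStruct) : Prop :=
  ∃ a b, S.q a b ≠ S.zero ∧ (∀ v, ∃ y ∈ Slots S a b, S.q y v = S.zero) ∧
    ∃ z ∈ Slots S a b, ∀ m, S.q z m = S.zero → m ∉ Slots S a b →
      ∀ y ∈ Slots S a b, y * m ∈ Slots S a b

/-- a structure with `-1 = 1` all of whose smaller structures are of elementary type and which
has such a universal symbol is of elementary type -/
theorem top_of_univ (S : QStruct) [Finite S.G] (hneg : S.neg = 1)
    (hT : ∀ T : QStruct, Finite T.G → T.neg = 1 → Nat.card T.G < Nat.card S.G → ElemType T)
    (h : HasUniv S) : ElemType S := by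
  obtain ⟨a, b, hab, hu, z, hz, h1⟩ := h
  apply elem_of_prime S hneg hT
  set D := toD S hneg with hD'
  have he : D.e = 0 := rfl
  have hc0 : S.q a b ≠ D.z := hab
  have hSl : ∀ x : Additive S.G, SlQ D (S.q a b) x ↔ Additive.toMul x ∈ Slots S a b := by
    intro x
    constructor
    · rintro ⟨y, hy⟩
      exact ⟨Additive.toMul y, hy⟩
    · rintro ⟨y, hy⟩
      exact ⟨Additive.ofMul y, hy⟩
  refine prime_univ (S := D) he hc0 ?_ (z := Additive.ofMul z) ((hSl _).2 hz) ?_
  · intro v
    obtain ⟨y, hy, hyv⟩ := hu (Additive.toMul v)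
    exact ⟨Additive.ofMul y, (hSl _).2 hy, hyv⟩
  · intro m hm hm' y hy
    exact (hSl (y + m)).2 (h1 (Additive.toMul m) hm (fun h => hm' ((hSl m).2 h))
      (Additive.toMul y) ((hSl y).1 hy))

/-- **The door one pair or one universal pair.** -/
theorem all_of_pair_or_univ
    (h : ∀ S : QStruct, Finite S.G → S.neg = 1 →
      (∀ T : QStruct, Finite T.G → T.neg = 1 → Nat.card T.G < Nat.card S.G → ElemType T) →
      ¬ ElemType S → HasPair S ∨ HasUniv S) :
    ∀ S : QStruct, Finite S.G → S.neg = 1 → ElemType S := by
  intro S hf hneg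
  induction hn : Nat.card S.G using Nat.strong_induction_on generalizing S with
  | _ n ih =>
    subst hn
    have hT : ∀ T : QStruct, Finite T.G → T.neg = 1 → Nat.card T.G < Nat.card S.G →
        ElemType T := fun T hf' hn' hc => ih (Nat.card T.G) hc T hf' hn' rfl
    by_contra hS
    rcases h S hf hneg hT hS with h' | h'
    · exact hS (top_of_pair S hneg hT h')
    · exact hS (top_of_univ S hneg hT h')

end Pool.Agent.RDC
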